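import Pool.Agent.Lib_helper76.UE11.A

/-!
# The unit equation on `X₁(11)`, II: homomorphisms, the function field, the derivation
-/

set_option autoImplicit false
set_option linter.unusedSectionVars false

namespace Pool.Agent.UE11

open Polynomial WeierstrassCurve.Affine WithZero

variable {k : Type*} [Field k]

/-- the function `x` -/
noncomputable def xR : R k := CoordinateRing.mk (E k) (C X)

/-- the function `y` -/
noncomputable def yR : R k := CoordinateRing.mk (E k) X

/-- the constants -/
noncomputable def cR : k →+* R k := (CoordinateRing.mk (E k)).comp (C.comp C)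

lemma poly_E : (E k).polynomial = X ^ 2 + X - C (X ^ 3 - X ^ 2 : k[X]) := by
  unfold WeierstrassCurve.Affine.polynomial E
  simp
  ring

lemma eqR : (yR : R k) ^ 2 + yR = xR ^ 3 - xR ^ 2 := by
  have h1 : CoordinateRing.mk (E k) ((E k).polynomial) = 0 := AdjoinRoot.mk_self
  have h := (congrArg (CoordinateRing.mk (E k)) (poly_E (k := k))).symm.trans h1
  simp only [map_sub, map_add, map_pow] at h
  unfold xR yR
  linear_combination h

/-- homomorphisms out of the coordinate ring -/
noncomputable def homR {S : Type*} [CommRing S] (i₀ : k →+* S) (x y : S)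
    (h : y ^ 2 + y = x ^ 3 - x ^ 2) : R k →+* S :=
  AdjoinRoot.lift (eval₂RingHom i₀ x) y (by
    rw [show (E k).polynomial = X ^ 2 + X - C (X ^ 3 - X ^ 2 : k[X]) from poly_E]
    simp only [eval₂_sub, eval₂_add, eval₂_pow, eval₂_X, eval₂_C, coe_eval₂RingHom]
    linear_combination h)

section homR

variable {S : Type*} [CommRing S] (i₀ : k →+* S) (x y : S) (h : y ^ 2 + y = x ^ 3 - x ^ 2)

lemma homR_C (p : k[X]) : homR i₀ x y h (CoordinateRing.mk (E k) (C p)) = p.eval₂ i₀ x := by
  unfold homR
  exact AdjoinRoot.lift_of _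

lemma homR_x : homR i₀ x y h xR = x := by
  unfold xR; rw [homR_C, eval₂_X]

lemma homR_y : homR i₀ x y h yR = y := by
  unfold homR yR
  exact AdjoinRoot.lift_root _

lemma homR_c (c : k) : homR i₀ x y h (cR c) = i₀ c := by
  unfold cR
  show homR i₀ x y h (CoordinateRing.mk (E k) (C (C c))) = _
  rw [homR_C, eval₂_C]

lemma basis_eq (p q : k[X]) : p • (1 : R k) + q • CoordinateRing.mk (E k) X =
    CoordinateRing.mk (E k) (C p) + CoordinateRing.mk (E k) (C q) * yR := by
  rw [CoordinateRing.smul, CoordinateRing.smul, mul_one]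
  rfl

lemma homR_basis (p q : k[X]) : homR i₀ x y h (p • (1 : R k) + q • CoordinateRing.mk (E k) X) =
    p.eval₂ i₀ x + q.eval₂ i₀ x * y := by
  rw [basis_eq, map_add, map_mul, homR_C, homR_C, homR_y]

lemma hom_ext {S : Type*} [CommRing S] {φ ψ : R k →+* S} (hc : ∀ c, φ (cR c) = ψ (cR c))
    (hx : φ xR = ψ xR) (hy : φ yR = ψ yR) : φ = ψ := by
  have h1 : ∀ p : k[X], φ (CoordinateRing.mk (E k) (C p)) = ψ (CoordinateRing.mk (E k) (C p)) := by
    intro p
    have : (φ.comp (CoordinateRing.mk (E k))).comp C = (ψ.comp (CoordinateRing.mk (E k))).comp C := by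
      apply Polynomial.ringHom_ext
      · intro a; exact hc a
      · exact hx
    exact congrArg (fun f : k[X] →+* S => f p) this
  refine RingHom.ext fun r => ?_
  obtain ⟨p, q, rfl⟩ := CoordinateRing.exists_smul_basis_eq r
  rw [basis_eq, map_add, map_add, map_mul, map_mul, h1, h1, hy]

/-- injectivity: only the transcendence of `x` is needed -/
lemma homR_injective {F : Type*} [Field F] (i₀ : k →+* F) (x y : F)
    (h : y ^ 2 + y = x ^ 3 - x ^ 2) (hx : ∀ p : k[X], p.eval₂ i₀ x = 0 → p = 0) :
    Function.Injective (homR i₀ x y h) := by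
  rw [injective_iff_map_eq_zero]
  intro r hr
  obtain ⟨p, q, rfl⟩ := CoordinateRing.exists_smul_basis_eq r
  rw [homR_basis] at hr
  have h1 : Algebra.norm k[X] (p • (1 : R k) + q • CoordinateRing.mk (E k) X) = 0 := by
    rw [CoordinateRing.norm_smul_basis]
    apply hx
    simp only [E, eval₂_sub, eval₂_add, eval₂_mul, eval₂_pow, eval₂_X, eval₂_zero, eval₂_one,
      eval₂_neg, map_zero, map_one, map_neg]
    linear_combination (p.eval₂ i₀ x - q.eval₂ i₀ x * y - q.eval₂ i₀ x) * hr +
      (q.eval₂ i₀ x) ^ 2 * h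
  have h2 : D (p • (1 : R k) + q • CoordinateRing.mk (E k) X) = ⊥ := by
    unfold D; rw [h1, degree_zero]
  exact D_eq_bot.mp h2

end homR

/-! ### the function field -/

variable (k) in
/-- the function field -/
abbrev K : Type _ := (E k).FunctionField

/-- the inclusion -/
noncomputable abbrev inc : R k →+* K k := algebraMap (R k) (K k)

lemma inc_injective : Function.Injective (inc (k := k)) := IsFractionRing.injective _ _

lemma supp_le : nonZeroDivisors (R k) ≤ (vR (k := k)).supp.primeCompl := by
  intro r hr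
  rw [Ideal.mem_primeCompl_iff, Valuation.mem_supp_iff]
  have hr0 : r ≠ 0 := nonZeroDivisors.ne_zero hr
  show ¬ (if r = 0 then 0 else exp (((D r).unbotD 0 : ℕ) : ℤ)) = 0
  rw [if_neg hr0]
  exact exp_ne_zero

/-- the absolute value at infinity -/
noncomputable def v : Valuation (K k) (WithZero (Multiplicative ℤ)) :=
  (vR (k := k)).extendToLocalization (supp_le (k := k)) (K k)

lemma v_inc (r : R k) : v (k := k) (inc r) = vR r :=
  Valuation.extendToLocalization_apply_map_apply vR supp_le (K k) r

lemma v_basis (p q : k[X]) {n : ℕ} (h : max (2 • p.degree) (2 • q.degree + 3) = n) :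
    v (k := k) (inc (p • (1 : R k) + q • CoordinateRing.mk (E k) X)) = exp (n : ℤ) := by
  rw [v_inc, vR_of_D (n := n)]
  rw [D_basis, h]

end Pool.Agent.UE11
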