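import Pool.Agent.Lib_helper76.UE11.D

/-!
# The unit equation on `X₁(11)`, V: abstract fields, all five cusps
-/

set_option autoImplicit false
set_option linter.unusedSectionVars false

namespace Pool.Agent.UE11

open Polynomial WeierstrassCurve.Affine WithZero

variable {k : Type*} [Field k] {F : Type*} [Field F] [Algebra k F]

/-- `x` is transcendental over `k` -/
def Tr (k : Type*) [Field k] {F : Type*} [Field F] [Algebra k F] (x : F) : Prop :=
  ∀ p : k[X], p.eval₂ (algebraMap k F) x = 0 → p = 0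

/-- a generic point of the curve -/
structure Gen (k : Type*) [Field k] {F : Type*} [Field F] [Algebra k F] (x y : F) : Prop where
  eq : y ^ 2 + y = x ^ 3 - x ^ 2
  tr : Tr k x

/-- the embedding of the function field given by a generic point -/
noncomputable def io {x y : F} (h : Gen k x y) : K k →+* F :=
  IsLocalization.lift (M := nonZeroDivisors (R k)) (g := homR (algebraMap k F) x y h.eq) (by
    intro r
    rw [isUnit_iff_ne_zero]
    intro h0
    exact nonZeroDivisors.coe_ne_zero r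
      (homR_injective (algebraMap k F) x y h.eq h.tr (by rw [h0, map_zero])))

section io

variable {x y : F} (h : Gen k x y)

lemma io_inc (r : R k) : io h (inc r) = homR (algebraMap k F) x y h.eq r :=
  IsLocalization.lift_eq _ _

lemma io_x : io h xK = x := (io_inc h _).trans (homR_x _ _ _ _)

lemma io_y : io h yK = y := (io_inc h _).trans (homR_y _ _ _ _)

lemma io_c (c : k) : io h (cK c) = algebraMap k F c := (io_inc h _).trans (homR_c _ _ _ _ _)

lemma io_inj : Function.Injective (io h) := (io h).injective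

include h

lemma Gen.x_ne : x ≠ 0 := by
  rw [← io_x h]; exact (_root_.map_ne_zero _).mpr UE11.x_ne

lemma Gen.x1_ne : x - 1 ≠ 0 := by
  have : x - 1 = io h (xK - 1) := by rw [map_sub, io_x, map_one]
  rw [this]; exact (_root_.map_ne_zero _).mpr UE11.x1_ne

lemma Gen.y_ne : y ≠ 0 := by
  rw [← io_y h]; exact (_root_.map_ne_zero _).mpr UE11.y_ne

lemma Gen.xy_ne : x + y ≠ 0 := by
  have : x + y = io h (xK + yK) := by rw [map_add, io_x, io_y]
  rw [this]; exact (_root_.map_ne_zero _).mpr UE11.xy_ne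

/-- linear independence of `1, x, y, x², x y` over `k` -/
theorem Gen.ind {n₀ n₁ n₂ n₃ n₄ : k} (h0 : algebraMap k F n₀ + algebraMap k F n₁ * x +
    algebraMap k F n₂ * y + algebraMap k F n₃ * x ^ 2 + algebraMap k F n₄ * (x * y) = 0) :
    n₀ = 0 ∧ n₁ = 0 ∧ n₂ = 0 ∧ n₃ = 0 ∧ n₄ = 0 := by
  by_contra hne
  obtain ⟨i, -, -, hi⟩ := v_N5 hne
  have : io h (N5 n₀ n₁ n₂ n₃ n₄) = 0 := by
    unfold N5
    simp only [map_add, map_mul, map_pow, io_c, io_x, io_y]
    exact h0
  exact (_root_.map_ne_zero _).mpr (ne_of_v hi) this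

omit h in
lemma Tr_iff (z : F) : Tr k z ↔ Transcendental k z := by
  constructor
  · intro hz ⟨p, hp, h0⟩
    exact hp (hz p h0)
  · intro hz p hp
    by_contra hne
    exact hz ⟨p, hne, hp⟩

/-- the next cusp -/
theorem Gen.next [CharZero k] : Gen k (-y / x ^ 2) (-(x ^ 2 + y) / x ^ 3) := by
  have hx := h.x_ne
  constructor
  · have he := h.eq
    field_simp
    linear_combination (x ^ 2 + y) * he
  · -- transcendence: `x₁ = -y/x²` satisfies `x₁² x² - x + 1 - x₁ = 0`
    rw [Tr_iff]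
    have htr := (Tr_iff x).mp h.tr
    intro halg
    apply htr
    set z := -y / x ^ 2 with hz
    have hy : y = - z * x ^ 2 := by rw [hz]; field_simp
    have hz0 : z ≠ 0 := by
      rw [hz]; exact div_ne_zero (neg_ne_zero.mpr h.y_ne) (pow_ne_zero 2 hx)
    clear_value z
    have he := h.eq
    rw [hy] at he
    have he' : z ^ 2 * x ^ 2 - x + 1 - z = 0 := by
      apply mul_left_cancel₀ (pow_ne_zero 2 hx)
      linear_combination he
    have : CharZero F := charZero_of_injective_algebraMap (algebraMap k F).injective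
    have h2 : (2 : F) ≠ 0 := two_ne_zero
    have hc : ∀ c : k, IsAlgebraic k (algebraMap k F c) := fun c => isAlgebraic_algebraMap c
    have h4 : IsAlgebraic k (z ^ 2 * x - 1 / 2) := by
      apply IsAlgebraic.of_pow (n := 2) (by norm_num)
      have e : (z ^ 2 * x - 1 / 2) ^ 2 = z ^ 2 * (z - 1) + algebraMap k F (1 / 4) := by
        rw [map_div₀, map_one, map_ofNat]
        linear_combination (z ^ 2) * he'
      rw [e]
      refine IsAlgebraic.add (IsAlgebraic.mul (halg.pow 2) (halg.sub ?_)) (hc _)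
      have := hc 1
      rwa [map_one] at this
    have h5 : IsAlgebraic k (z ^ 2 * x) := by
      have e : z ^ 2 * x = (z ^ 2 * x - 1 / 2) + algebraMap k F (1 / 2) := by
        rw [map_div₀, map_one, map_ofNat]; ring
      rw [e]
      exact h4.add (hc _)
    have e : x = (z ^ 2)⁻¹ * (z ^ 2 * x) := by
      field_simp
    rw [e]
    exact (halg.pow 2).inv.mul h5

end io

/-! ### the basis of the units -/

/-- the five units `x(z + iP)` -/
noncomputable def X (x y : F) : Fin 5 → F :=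
  ![x, -y / x ^ 2, x * (x + y) / (y * (x - 1)), y / (x + y), (x - 1) / y]

/-- the monomials -/
noncomputable def mon (x y : F) (e : Fin 5 → ℤ) : F := ∏ i, X x y i ^ e i

/-- the order at the `i`-th cusp -/
def mm (e : Fin 5 → ℤ) (i : Fin 5) : ℤ := e (i + 1) + e (i - 1) - 2 * e i

section

variable {x y : F}

lemma mon_eq (e : Fin 5 → ℤ) : mon x y e = x ^ e 0 * (-y / x ^ 2) ^ e 1 *
    (x * (x + y) / (y * (x - 1))) ^ e 2 * (y / (x + y)) ^ e 3 * ((x - 1) / y) ^ e 4 := by
  unfold mon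
  rw [Fin.prod_univ_five]
  rfl

lemma X_ne (h : Gen k x y) (i : Fin 5) : X x y i ≠ 0 := by
  have h1 := h.x_ne
  have h2 := h.x1_ne
  have h3 := h.y_ne
  have h4 := h.xy_ne
  fin_cases i
  · exact h1
  · exact div_ne_zero (neg_ne_zero.mpr h3) (pow_ne_zero 2 h1)
  · exact div_ne_zero (mul_ne_zero h1 h4) (mul_ne_zero h3 h2)
  · exact div_ne_zero h3 h4
  · exact div_ne_zero h2 h3

lemma mon_ne (h : Gen k x y) (e : Fin 5 → ℤ) : mon x y e ≠ 0 :=
  Finset.prod_ne_zero_iff.mpr fun i _ => zpow_ne_zero _ (X_ne h i)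

/-- translation to the next cusp -/
lemma X_next (h : Gen k x y) (i : Fin 5) :
    X (-y / x ^ 2) (-(x ^ 2 + y) / x ^ 3) i = X x y (i + 1) := by
  have h1 := h.x_ne
  have h2 := h.x1_ne
  have h3 := h.y_ne
  have h4 := h.xy_ne
  have he := h.eq
  have e1 : x ^ 2 + y = y * (x + y) / (x - 1) := by
    rw [eq_div_iff h2]; linear_combination -he
  have h5 : x ^ 2 + y ≠ 0 := by
    rw [e1]; exact div_ne_zero (mul_ne_zero h3 h4) h2
  have e2 : x * y + x ^ 2 + y = y ^ 2 * (x + y) / (x - 1) ^ 2 := by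
    rw [eq_div_iff (pow_ne_zero 2 h2)]
    linear_combination (-y + 1 - x) * he
  have g1 : -y / x ^ 2 + -(x ^ 2 + y) / x ^ 3 = -(x * y + x ^ 2 + y) / x ^ 3 := by
    field_simp
    ring
  have g2 : -y / x ^ 2 - 1 = -(x ^ 2 + y) / x ^ 2 := by
    field_simp
    ring
  fin_cases i
  · rfl
  · show -(-(x ^ 2 + y) / x ^ 3) / (-y / x ^ 2) ^ 2 = x * (x + y) / (y * (x - 1))
    rw [e1]
    field_simp
  · show (-y / x ^ 2) * (-y / x ^ 2 + -(x ^ 2 + y) / x ^ 3) /
      (-(x ^ 2 + y) / x ^ 3 * (-y / x ^ 2 - 1)) = y / (x + y)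
    rw [g1, g2, e2, e1]
    field_simp
  · show -(x ^ 2 + y) / x ^ 3 / (-y / x ^ 2 + -(x ^ 2 + y) / x ^ 3) = (x - 1) / y
    rw [g1, e2, e1]
    field_simp
  · show (-y / x ^ 2 - 1) / (-(x ^ 2 + y) / x ^ 3) = x
    rw [g2]
    field_simp

lemma mon_next (h : Gen k x y) (e : Fin 5 → ℤ) :
    mon (-y / x ^ 2) (-(x ^ 2 + y) / x ^ 3) (fun i => e (i + 1)) = mon x y e := by
  unfold mon
  rw [← Equiv.prod_comp (Equiv.addRight (1 : Fin 5)) (fun i => X x y i ^ e i)]
  refine Finset.prod_congr rfl fun i _ => ?_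
  rw [X_next h]
  rfl

/-- the alternatives at one cusp -/
def Alt (m m' : ℤ) : Prop := (m = 0 ∧ m' = 0) ∨ (1 ≤ m ∧ m ≤ 5 ∧ m' = 0) ∨
  (m = 0 ∧ 1 ≤ m' ∧ m' ≤ 5) ∨ (m = m' ∧ -5 ≤ m ∧ m ≤ -1)

lemma io_mo (h : Gen k x y) (a b c d : ℤ) : io h (mo a b c d) =
    x ^ a * (x - 1) ^ b * y ^ c * (x + y) ^ d := by
  unfold mo
  rw [map_mul, map_mul, map_mul, map_zpow₀, map_zpow₀, map_zpow₀, map_zpow₀, map_sub, map_add,
    io_x, io_y, map_one]

lemma mon_mo (h : Gen k x y) (e : Fin 5 → ℤ) : mon x y e = (-1) ^ e 1 *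
    io h (mo (e 0 - 2 * e 1 + e 2) (-e 2 + e 4) (e 1 - e 2 + e 3 - e 4) (e 2 - e 3)) := by
  have h1 := h.x_ne
  have h2 := h.x1_ne
  have h3 := h.y_ne
  have h4 := h.xy_ne
  rw [io_mo, mon_eq, show -y / x ^ 2 = (-1) * (y / (x * x)) by rw [pow_two]; ring]
  simp only [mul_zpow, div_zpow]
  rw [show e 0 - 2 * e 1 + e 2 = e 0 + e 2 - e 1 - e 1 by ring,
    show -e 2 + e 4 = e 4 - e 2 by ring, show e 1 - e 2 + e 3 - e 4 = e 1 + e 3 - e 2 - e 4 by ring]
  rw [zpow_sub₀ h1, zpow_sub₀ h1, zpow_add₀ h1, zpow_sub₀ h2, zpow_sub₀ h3, zpow_sub₀ h3,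
    zpow_add₀ h3, zpow_sub₀ h4]
  field_simp

/-- **the bound at the first cusp** -/
theorem GL0 [CharZero k] (h : Gen k x y) {c₀ c₁ : k} (h0 : c₀ ≠ 0) (h1 : c₁ ≠ 0)
    {e e' : Fin 5 → ℤ} (hu : algebraMap k F c₀ * mon x y e + algebraMap k F c₁ * mon x y e' = 1) :
    (∀ i j, e i = e j) ∨ Alt (mm e 0) (mm e' 0) := by
  have hs : ∀ n : ℤ, ((-1 : k)) ^ n ≠ 0 := fun n => zpow_ne_zero _ (neg_ne_zero.mpr one_ne_zero)
  have key := GL_K (k := k) (mul_ne_zero h0 (hs (e 1))) (mul_ne_zero h1 (hs (e' 1)))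
    (a := e 0 - 2 * e 1 + e 2) (b := -e 2 + e 4) (c := e 1 - e 2 + e 3 - e 4) (d := e 2 - e 3)
    (a' := e' 0 - 2 * e' 1 + e' 2) (b' := -e' 2 + e' 4) (c' := e' 1 - e' 2 + e' 3 - e' 4)
    (d' := e' 2 - e' 3) (n := - mm e 0) (n' := - mm e' 0) (by
      apply io_inj h
      rw [map_one, ← hu, mon_mo h, mon_mo h]
      simp only [map_add, map_mul, io_c, map_zpow₀, map_neg, map_one]
      ring) (by
      show -(e (0 + 1) + e (0 - 1) - 2 * e 0) = _
      rw [show (0 + 1 : Fin 5) = 1 from rfl, show (0 - 1 : Fin 5) = 4 from rfl]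
      ring) (by
      show -(e' (0 + 1) + e' (0 - 1) - 2 * e' 0) = _
      rw [show (0 + 1 : Fin 5) = 1 from rfl, show (0 - 1 : Fin 5) = 4 from rfl]
      ring)
  rcases key with ⟨a1, a2, a3, a4⟩ | h2 | h2 | h2 | h2
  · left
    have b1 : e 1 = e 0 := by omega
    have b2 : e 2 = e 0 := by omega
    have b3 : e 3 = e 0 := by omega
    have b4 : e 4 = e 0 := by omega
    intro i j
    fin_cases i <;> fin_cases j <;> simp <;> omega
  · right; unfold Alt; omega
  · right; unfold Alt; omega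
  · right; unfold Alt; omega
  · right; unfold Alt; omega

/-- the cusps one after the other -/
def sh : ℕ → Fin 5
  | 0 => 0
  | n + 1 => sh n + 1

lemma mm_shift (e : Fin 5 → ℤ) (i : Fin 5) : mm (fun i => e (i + 1)) i = mm e (i + 1) := by
  show e (i + 1 + 1) + e (i - 1 + 1) - 2 * e (i + 1) =
    e (i + 1 + 1) + e (i + 1 - 1) - 2 * e (i + 1)
  rw [sub_add_cancel, add_sub_cancel_right]

/-- the bound at all cusps, by translation -/
theorem bound_nat [CharZero k] : ∀ (n : ℕ) {x y : F} (_ : Gen k x y) {c₀ c₁ : k} (_ : c₀ ≠ 0)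
    (_ : c₁ ≠ 0) {e e' : Fin 5 → ℤ}
    (_ : algebraMap k F c₀ * mon x y e + algebraMap k F c₁ * mon x y e' = 1),
    (∀ i j, e i = e j) ∨ Alt (mm e (sh n)) (mm e' (sh n)) := by
  intro n
  induction n with
  | zero => intro x y h c₀ c₁ h0 h1 e e' hu; exact GL0 h h0 h1 hu
  | succ n ih =>
    intro x y h c₀ c₁ h0 h1 e e' hu
    rw [← mon_next h e, ← mon_next h e'] at hu
    rcases ih h.next h0 h1 hu with h2 | h2
    · left
      intro i j
      have := h2 (i - 1) (j - 1)
      simpa using this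
    · right
      rwa [mm_shift, mm_shift] at h2

/-- **the bound at all five cusps** -/
theorem bound [CharZero k] (h : Gen k x y) {c₀ c₁ : k} (h0 : c₀ ≠ 0) (h1 : c₁ ≠ 0)
    {e e' : Fin 5 → ℤ} (hu : algebraMap k F c₀ * mon x y e + algebraMap k F c₁ * mon x y e' = 1) :
    (∀ i j, e i = e j) ∨ ∀ i, Alt (mm e i) (mm e' i) := by
  by_cases hc : ∀ i j, e i = e j
  · exact Or.inl hc
  · right
    intro i
    have key := fun n => (bound_nat n h h0 h1 hu).resolve_left hc
    fin_cases i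
    · exact key 0
    · exact key 1
    · exact key 2
    · exact key 3
    · exact key 4

end

end Pool.Agent.UE11
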