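import Pool.Agent.Lib_helper76.UE11.Ten

/-!
# The unit equation on `X₁(11)`, VII: the conjugate function

With `y² + y = x³ - x²`, `b = x (x - 1) (x + y)`, `c = y (x + y) / x` and the Tate curve
`⟨1 - c, -b, -b, 0, 0⟩` the five irrational cusps are the zeros of
`h' = x³ - 5x² - 3xy + 2x + 2y + 1`, the conjugate of `hh` under `y ↦ -1 - y`.
-/

set_option autoImplicit false
set_option linter.unusedSectionVars false

namespace Pool.Agent.UE11

/-- the function with zeros at the irrational cusps of the Tate curve -/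
def hh' {L : Type*} [Field L] (x y : L) : L := x ^ 3 - 5 * x ^ 2 - 3 * x * y + 2 * x + 2 * y + 1

lemma hh_conj {L : Type*} [Field L] (x y : L) : hh x (-1 - y) = hh' x y := by
  unfold hh hh'; ring

variable {k : Type*} [Field k] {F : Type*} [Field F] [Algebra k F] {x y : F}

lemma Gen.conj (h : Gen k x y) : Gen k x (-1 - y) := ⟨by linear_combination h.eq, h.tr⟩

lemma hh'_ne (h : Gen k x y) : hh' x y ≠ 0 := by
  rw [← hh_conj]; exact hh_ne h.conj

lemma X_conj {L : Type*} [Field L] {x y : L} (h : Pt x y) (i : Fin 5) :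
    X x (-1 - y) i = X x y (-i) := by
  have h1 := h.x0
  have h2 := h.x1
  have h3 := h.y0
  have h4 := h.xy0
  have he := h.eq
  have h5 : (-1 - y) ≠ 0 := by
    intro h0
    have : x ^ 2 * (x - 1) = 0 := by linear_combination (-y) * h0 - he
    exact (mul_ne_zero (pow_ne_zero 2 h1) h2) this
  have h6 : x + (-1 - y) ≠ 0 := by
    intro h0
    have : x * (x - 1) ^ 2 = 0 := by
      linear_combination -(x + y) * h0 - he
    exact (mul_ne_zero h1 (pow_ne_zero 2 h2)) this
  fin_cases i
  · rfl
  · show -(-1 - y) / x ^ 2 = (x - 1) / y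
    rw [div_eq_div_iff (pow_ne_zero 2 h1) h3]
    linear_combination he
  · show x * (x + (-1 - y)) / ((-1 - y) * (x - 1)) = y / (x + y)
    rw [div_eq_div_iff (mul_ne_zero h5 h2) h4]
    linear_combination (-1) * he
  · show (-1 - y) / (x + (-1 - y)) = x * (x + y) / (y * (x - 1))
    rw [div_eq_div_iff h6 (mul_ne_zero h3 h2)]
    linear_combination he
  · show (x - 1) / (-1 - y) = -y / x ^ 2
    rw [div_eq_div_iff h5 (pow_ne_zero 2 h1)]
    linear_combination (-1) * he

lemma mon_conj {L : Type*} [Field L] {x y : L} (h : Pt x y) (e : Fin 5 → ℤ) :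
    mon x (-1 - y) (fun i => e (-i)) = mon x y e := by
  unfold mon
  rw [← Equiv.prod_comp (Equiv.neg (Fin 5)) (fun i => X x y i ^ e i)]
  refine Finset.prod_congr rfl fun i _ => ?_
  rw [X_conj h]
  rfl

/-- **In a solution of the unit equation with support in the ten cusps the function `h'` does not
occur.** -/
theorem ten' [CharZero k] (h : Gen k x y) {c₀ c₁ : k} (h0 : c₀ ≠ 0) (h1 : c₁ ≠ 0)
    {e e' : Fin 5 → ℤ} {m m' : ℤ} (hu : algebraMap k F c₀ * mon x y e * hh' x y ^ m +
      algebraMap k F c₁ * mon x y e' * hh' x y ^ m' = 1) : m = 0 ∧ m' = 0 := by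
  rw [← hh_conj, ← mon_conj h.pt e, ← mon_conj h.pt e'] at hu
  exact ten h.conj h0 h1 hu

end Pool.Agent.UE11
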