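import Pool.Agent.Lib_helper76.UE11.B

/-!
# The unit equation on `X₁(11)`, III: the invariant derivation
-/

set_option autoImplicit false
set_option linter.unusedSectionVars false

namespace Pool.Agent.UE11

open Polynomial WeierstrassCurve.Affine WithZero TrivSqZeroExt

variable {k : Type*} [Field k]

/-- the function `x` in the function field -/
noncomputable def xK : K k := inc xR

/-- the function `y` in the function field -/
noncomputable def yK : K k := inc yR

/-- the constants -/
noncomputable def cK : k →+* K k := (inc (k := k)).comp cR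

lemma eqK : (yK : K k) ^ 2 + yK = xK ^ 3 - xK ^ 2 := by
  unfold xK yK
  rw [← map_pow, ← map_add, eqR, map_sub, map_pow, map_pow]

/-- dual numbers -/
abbrev T (k : Type*) [Field k] : Type _ := TrivSqZeroExt (K k) (K k)

lemma eqT : ((inl yK + inr (3 * xK ^ 2 - 2 * xK) : T k)) ^ 2 + (inl yK + inr (3 * xK ^ 2 - 2 * xK)) =
    (inl xK + inr (2 * yK + 1)) ^ 3 - (inl xK + inr (2 * yK + 1)) ^ 2 := by
  have h := eqK (k := k)
  have e2 : ∀ a : T k, a ^ 2 = a * a := fun a => pow_two a
  have e3 : ∀ a : T k, a ^ 3 = a * a * a := fun a => by ring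
  rw [e2, e2, e3]
  apply TrivSqZeroExt.ext
  · simp
    linear_combination h
  · simp
    ring

/-- the deformation of the inclusion -/
noncomputable def phR : R k →+* T k :=
  homR ((inlHom (K k) (K k)).comp cK) (inl xK + inr (2 * yK + 1))
    (inl yK + inr (3 * xK ^ 2 - 2 * xK)) eqT

lemma fst_phR (r : R k) : fst (phR r) = inc r := by
  have : (fstHom (K k) (K k) (K k)).toRingHom.comp (phR (k := k)) = inc (k := k) := by
    apply hom_ext
    · intro c
      show fst (phR (cR c)) = _
      unfold phR
      rw [homR_c]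
      simp
      rfl
    · show fst (phR xR) = _
      unfold phR
      rw [homR_x]
      simp
      rfl
    · show fst (phR yR) = _
      unfold phR
      rw [homR_y]
      simp
      rfl
  exact congrArg (fun f : R k →+* K k => f r) this

/-- the deformation of the identity -/
noncomputable def ph : K k →+* T k :=
  IsLocalization.lift (M := nonZeroDivisors (R k)) (g := phR (k := k)) (by
    intro r
    rw [isUnit_iff_isUnit_fst, fst_phR, isUnit_iff_ne_zero]
    intro h
    exact nonZeroDivisors.coe_ne_zero r (inc_injective (by rw [h, map_zero])))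

lemma ph_inc (r : R k) : ph (k := k) (inc r) = phR r := IsLocalization.lift_eq _ _

lemma fst_ph (z : K k) : fst (ph (k := k) z) = z := by
  have : (fstHom (K k) (K k) (K k)).toRingHom.comp (ph (k := k)) = RingHom.id (K k) := by
    apply IsLocalization.ringHom_ext (nonZeroDivisors (R k))
    refine RingHom.ext fun r => ?_
    show fst (ph (inc r)) = inc r
    rw [ph_inc, fst_phR]
  exact congrArg (fun f : K k →+* K k => f z) this

/-- the invariant derivation -/
noncomputable def dv (z : K k) : K k := snd (ph (k := k) z)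

lemma dv_add (z w : K k) : dv (z + w) = dv z + dv w := by
  unfold dv; rw [map_add, snd_add]

lemma dv_mul (z w : K k) : dv (z * w) = z * dv w + w * dv z := by
  unfold dv; rw [map_mul, snd_mul, fst_ph, fst_ph, smul_eq_mul, op_smul_eq_smul, smul_eq_mul]

lemma dv_one : dv (1 : K k) = 0 := by
  unfold dv; rw [map_one, snd_one]

lemma dv_c (c : k) : dv (cK c) = 0 := by
  unfold dv
  show snd (ph (inc (cR c))) = 0
  rw [ph_inc]
  unfold phR
  rw [homR_c]
  simp

lemma dv_x : dv (xK : K k) = 2 * yK + 1 := by
  unfold dv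
  show snd (ph (inc xR)) = _
  rw [ph_inc]
  unfold phR
  rw [homR_x]
  simp

lemma dv_y : dv (yK : K k) = 3 * xK ^ 2 - 2 * xK := by
  unfold dv
  show snd (ph (inc yR)) = _
  rw [ph_inc]
  unfold phR
  rw [homR_y]
  simp

/-- the logarithmic derivative -/
noncomputable def ld (z : K k) : K k := dv z / z

lemma ld_mul {z w : K k} (hz : z ≠ 0) (hw : w ≠ 0) : ld (z * w) = ld z + ld w := by
  unfold ld
  rw [dv_mul]
  field_simp
  ring

lemma ld_one : ld (1 : K k) = 0 := by unfold ld; rw [dv_one, zero_div]

lemma ld_inv {z : K k} (hz : z ≠ 0) : ld z⁻¹ = - ld z := by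
  have h := ld_mul hz (inv_ne_zero hz)
  rw [mul_inv_cancel₀ hz, ld_one] at h
  linear_combination -h

lemma ld_pow {z : K k} (hz : z ≠ 0) (n : ℕ) : ld (z ^ n) = n * ld z := by
  induction n with
  | zero => rw [pow_zero, ld_one]; simp
  | succ n ih =>
    rw [pow_succ, ld_mul (pow_ne_zero n hz) hz, ih]
    push_cast
    ring

lemma ld_zpow {z : K k} (hz : z ≠ 0) (n : ℤ) : ld (z ^ n) = n * ld z := by
  obtain ⟨m, rfl | rfl⟩ := n.eq_nat_or_neg
  · rw [zpow_natCast, ld_pow hz]; simp
  · rw [zpow_neg, zpow_natCast, ld_inv (pow_ne_zero m hz), ld_pow hz]; simp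

end Pool.Agent.UE11
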