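import Mathlib

/-!
# Circulant relations of length five

If the products of a vector `w : Fin 5 → M` with all the cyclic shifts of a nonconstant integer
vector `e` agree, then the differences `w i - w j` are torsion.
-/

set_option autoImplicit false

namespace Pool.Agent.UE11

open Polynomial

/-- the shift -/
def shiftEnd (M : Type*) [AddCommGroup M] : Module.End ℤ (Fin 5 → M) :=
  LinearMap.funLeft ℤ M (fun i => i + 1)

lemma shiftEnd_apply {M : Type*} [AddCommGroup M] (w : Fin 5 → M) (i : Fin 5) :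
    shiftEnd M w i = w (i + 1) := rfl

lemma shiftEnd_pow {M : Type*} [AddCommGroup M] (w : Fin 5 → M) :
    (shiftEnd M ^ 0) w = w ∧ (shiftEnd M ^ 1) w = (fun i => w (i + 1)) ∧
    (shiftEnd M ^ 2) w = (fun i => w (i + 2)) ∧ (shiftEnd M ^ 3) w = (fun i => w (i + 3)) ∧
    (shiftEnd M ^ 4) w = (fun i => w (i + 4)) ∧ (shiftEnd M ^ 5) w = w := by
  refine ⟨?_, ?_, ?_, ?_, ?_, ?_⟩
  · simp
  · funext i
    rw [pow_one]
    rfl
  all_goals
    funext i
    simp only [pow_succ, pow_zero, one_mul, Module.End.mul_apply, shiftEnd_apply]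
    congr 1
    revert i
    decide

/-- the polynomial of a vector -/
noncomputable def pol (e : Fin 5 → ℤ) : ℤ[X] :=
  C (e 0) + C (e 1) * X + C (e 2) * X ^ 2 + C (e 3) * X ^ 3 + C (e 4) * X ^ 4

lemma aeval_pol {M : Type*} [AddCommGroup M] (w : Fin 5 → M) (e : Fin 5 → ℤ) (j : Fin 5) :
    aeval (shiftEnd M) (pol e) w j = ∑ i, e i • w (i + j) := by
  obtain ⟨-, h1, h2, h3, h4, -⟩ := shiftEnd_pow w
  rw [pow_one] at h1
  unfold pol
  simp only [map_add, map_mul, map_pow, aeval_X, aeval_C, LinearMap.add_apply,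
    Module.End.mul_apply, h1, h2, h3, h4, Module.algebraMap_end_apply, Pi.add_apply,
    Pi.smul_apply]
  rw [Fin.sum_univ_five, zero_add, add_comm 1 j, add_comm 2 j, add_comm 3 j, add_comm 4 j]

/-- a nonconstant vector is prime to the fifth cyclotomic polynomial -/
lemma coprime_pol {e : Fin 5 → ℤ} (hne : ¬ ∀ i j, e i = e j) :
    IsCoprime ((pol e).map (Int.castRingHom ℚ)) (cyclotomic 5 ℚ) := by
  have hirr : Irreducible (cyclotomic 5 ℚ) := cyclotomic.irreducible_rat (by norm_num)
  by_cases hdvd : cyclotomic 5 ℚ ∣ (pol e).map (Int.castRingHom ℚ)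
  swap
  · exact ((EuclideanDomain.dvd_or_coprime _ _ hirr).resolve_left hdvd).symm
  · obtain ⟨B, hB⟩ := hdvd
    exfalso
    apply hne
    have hcyc : cyclotomic 5 ℚ = 1 + X + X ^ 2 + X ^ 3 + X ^ 4 := by
      have : Fact (Nat.Prime 5) := ⟨by norm_num⟩
      rw [cyclotomic_prime]
      simp only [Finset.sum_range_succ, Finset.range_zero, Finset.sum_empty, pow_zero, pow_one,
        zero_add]
    have hdeg : (cyclotomic 5 ℚ).natDegree = 4 := by
      rw [natDegree_cyclotomic]; decide
    have hle : ((pol e).map (Int.castRingHom ℚ)).natDegree ≤ 4 := by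
      refine natDegree_map_le.trans ?_
      unfold pol
      compute_degree
    have hB0 : B.natDegree = 0 := by
      by_cases hz : B = 0
      · rw [hz, natDegree_zero]
      · have := natDegree_mul (cyclotomic_ne_zero 5 ℚ) hz
        rw [← hB, hdeg] at this
        omega
    obtain ⟨b, rfl⟩ : ∃ b : ℚ, B = C b := ⟨B.coeff 0, eq_C_of_natDegree_eq_zero hB0⟩
    rw [hcyc] at hB
    have hc : ∀ n : ℕ, ((pol e).map (Int.castRingHom ℚ)).coeff n =
        ((1 + X + X ^ 2 + X ^ 3 + X ^ 4) * C b : ℚ[X]).coeff n := fun n => by rw [hB]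
    have c0 : ((e 0 : ℤ) : ℚ) = b := by
      have := hc 0
      rw [coeff_map, coeff_mul_C] at this
      unfold pol at this
      simp only [coeff_add, coeff_C_mul, coeff_C, coeff_X, coeff_X_pow, coeff_one] at this
      norm_num at this
      exact this
    have c1 : ((e 1 : ℤ) : ℚ) = b := by
      have := hc 1
      rw [coeff_map, coeff_mul_C] at this
      unfold pol at this
      simp only [coeff_add, coeff_C_mul, coeff_C, coeff_X, coeff_X_pow, coeff_one] at this
      norm_num at this
      exact this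
    have c2 : ((e 2 : ℤ) : ℚ) = b := by
      have := hc 2
      rw [coeff_map, coeff_mul_C] at this
      unfold pol at this
      simp only [coeff_add, coeff_C_mul, coeff_C, coeff_X, coeff_X_pow, coeff_one] at this
      norm_num at this
      exact this
    have c3 : ((e 3 : ℤ) : ℚ) = b := by
      have := hc 3
      rw [coeff_map, coeff_mul_C] at this
      unfold pol at this
      simp only [coeff_add, coeff_C_mul, coeff_C, coeff_X, coeff_X_pow, coeff_one] at this
      norm_num at this
      exact this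
    have c4 : ((e 4 : ℤ) : ℚ) = b := by
      have := hc 4
      rw [coeff_map, coeff_mul_C] at this
      unfold pol at this
      simp only [coeff_add, coeff_C_mul, coeff_C, coeff_X, coeff_X_pow, coeff_one] at this
      norm_num at this
      exact this
    have key : ∀ i, ((e i : ℤ) : ℚ) = b := by
      intro i
      fin_cases i
      · exact c0
      · exact c1
      · exact c2
      · exact c3
      · exact c4
    intro i j
    exact_mod_cast (key i).trans (key j).symm

/-- the integral form of coprimality -/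
lemma int_bezout {A B : ℤ[X]} (h : IsCoprime (A.map (Int.castRingHom ℚ))
    (B.map (Int.castRingHom ℚ))) : ∃ (N : ℤ) (U V : ℤ[X]), N ≠ 0 ∧ U * A + V * B = C N := by
  obtain ⟨u, v, huv⟩ := h
  obtain ⟨b, hbm, hb⟩ := IsLocalization.integerNormalization_spec (nonZeroDivisors ℤ) u
  obtain ⟨c, hcm, hc⟩ := IsLocalization.integerNormalization_spec (nonZeroDivisors ℤ) v
  set u' := IsLocalization.integerNormalization (nonZeroDivisors ℤ) u
  set v' := IsLocalization.integerNormalization (nonZeroDivisors ℤ) v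
  have hb0 : (b : ℤ) ≠ 0 := nonZeroDivisors.ne_zero hbm
  have hc0 : (c : ℤ) ≠ 0 := nonZeroDivisors.ne_zero hcm
  refine ⟨b * c, C (c : ℤ) * u', C (b : ℤ) * v', mul_ne_zero hb0 hc0, ?_⟩
  apply map_injective (Int.castRingHom ℚ) Int.cast_injective
  have hb' : u'.map (Int.castRingHom ℚ) = C ((b : ℤ) : ℚ) * u := by
    have : u'.map (Int.castRingHom ℚ) = (b : ℤ) • u := hb
    rw [this, zsmul_eq_mul]
    simp
  have hc' : v'.map (Int.castRingHom ℚ) = C ((c : ℤ) : ℚ) * v := by
    have : v'.map (Int.castRingHom ℚ) = (c : ℤ) • v := hc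
    rw [this, zsmul_eq_mul]
    simp
  simp only [Polynomial.map_add, Polynomial.map_mul, map_C, hb', hc']
  rw [show (Int.castRingHom ℚ) (b * c) = (b : ℚ) * (c : ℚ) by simp, C_mul,
    show (Int.castRingHom ℚ) b = (b : ℚ) from rfl, show (Int.castRingHom ℚ) c = (c : ℚ) from rfl]
  linear_combination (C ((b : ℤ) : ℚ) * C ((c : ℤ) : ℚ)) * huv

/-- **circulant relations** -/
theorem circ {M : Type*} [AddCommGroup M] (w : Fin 5 → M) (e : Fin 5 → ℤ) (c : M)
    (hc : ∀ j, ∑ i, e i • w (i + j) = c) (hne : ¬ ∀ i j, e i = e j) :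
    ∃ N : ℤ, N ≠ 0 ∧ ∀ i, N • w (i + 1) = N • w i := by
  obtain ⟨N, U, V, hN, hUV⟩ := int_bezout (A := pol e) (B := cyclotomic 5 ℤ) (by
    rw [map_cyclotomic]; exact coprime_pol hne)
  refine ⟨N, hN, ?_⟩
  have hcyc : cyclotomic 5 ℤ * (X - 1) = X ^ 5 - 1 := by
    have : Fact (Nat.Prime 5) := ⟨by norm_num⟩
    exact cyclotomic_prime_mul_X_sub_one ℤ 5
  have key : U * ((X - 1) * pol e) + V * (X ^ 5 - 1) = C N * (X - 1) := by
    rw [← hcyc]
    linear_combination (X - 1) * hUV
  have h1 : aeval (shiftEnd M) ((X - 1) * pol e) w = 0 := by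
    funext j
    rw [map_mul, Module.End.mul_apply, map_sub, aeval_X, map_one, LinearMap.sub_apply,
      Module.End.one_apply, Pi.sub_apply, shiftEnd_apply, aeval_pol, aeval_pol, hc, hc, sub_self]
    rfl
  have h2 : aeval (shiftEnd M) ((X ^ 5 - 1 : ℤ[X])) w = 0 := by
    rw [map_sub, map_pow, aeval_X, map_one, LinearMap.sub_apply, (shiftEnd_pow w).2.2.2.2.2,
      Module.End.one_apply, sub_self]
  have h3 := congrArg (fun G => aeval (shiftEnd M) G w) key
  simp only [map_add, map_mul, LinearMap.add_apply, Module.End.mul_apply] at h1 h2 h3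
  rw [h2, map_zero, add_zero] at h3
  intro i
  have h4 := congrFun h3 i
  rw [h1, map_zero] at h4
  simp only [map_sub, aeval_X, map_one, aeval_C, Module.algebraMap_end_apply,
    LinearMap.sub_apply, Module.End.one_apply, Pi.smul_apply,
    Pi.sub_apply, Pi.zero_apply, shiftEnd_apply] at h4
  exact (sub_eq_zero.mp h4.symm)

end Pool.Agent.UE11
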