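import Pool.Agent.Lib_helper76.UE11.C

/-!
# The unit equation on `X₁(11)`, IV: the bound at one cusp
-/

set_option autoImplicit false
set_option linter.unusedSectionVars false

namespace Pool.Agent.UE11

open Polynomial WeierstrassCurve.Affine WithZero

variable {k : Type*} [Field k]

lemma inc_basis (p q : k[X]) : inc (p • (1 : R k) + q • CoordinateRing.mk (E k) X) =
    p.eval₂ cK xK + q.eval₂ cK xK * yK := by
  have h : (inc (k := k)) = homR cK xK yK eqK := by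
    apply hom_ext
    · intro c; rw [homR_c]; rfl
    · rw [homR_x]; rfl
    · rw [homR_y]; rfl
  rw [h, homR_basis]

/-- the elements of `⟨1, x, y, x², x y⟩` -/
noncomputable def N5 (n₀ n₁ n₂ n₃ n₄ : k) : K k :=
  cK n₀ + cK n₁ * xK + cK n₂ * yK + cK n₃ * xK ^ 2 + cK n₄ * (xK * yK)

lemma N5_basis (n₀ n₁ n₂ n₃ n₄ : k) : N5 n₀ n₁ n₂ n₃ n₄ =
    inc ((C n₀ + C n₁ * X + C n₃ * X ^ 2) • (1 : R k) +
      (C n₂ + C n₄ * X) • CoordinateRing.mk (E k) X) := by
  rw [inc_basis]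
  simp only [eval₂_add, eval₂_mul, eval₂_C, eval₂_X, eval₂_pow]
  unfold N5
  ring

lemma v_N5 {n₀ n₁ n₂ n₃ n₄ : k} (h : ¬ (n₀ = 0 ∧ n₁ = 0 ∧ n₂ = 0 ∧ n₃ = 0 ∧ n₄ = 0)) :
    ∃ i : ℤ, 0 ≤ i ∧ i ≤ 5 ∧ v (k := k) (N5 n₀ n₁ n₂ n₃ n₄) = exp i := by
  set p : k[X] := C n₀ + C n₁ * X + C n₃ * X ^ 2 with hp
  set q : k[X] := C n₂ + C n₄ * X with hq
  have hp2 : p.degree ≤ 2 := by
    rw [hp]
    refine (degree_add_le _ _).trans (max_le ((degree_add_le _ _).trans (max_le ?_ ?_)) ?_)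
    · exact degree_C_le.trans (by norm_num)
    · exact (degree_C_mul_X_le _).trans (by norm_num)
    · exact degree_C_mul_X_pow_le 2 _
  have hq1 : q.degree ≤ 1 := by
    rw [hq]
    refine (degree_add_le _ _).trans (max_le ?_ ?_)
    · exact degree_C_le.trans (by norm_num)
    · exact degree_C_mul_X_le _
  have hle : max (2 • p.degree) (2 • q.degree + 3) ≤ ((5 : ℕ) : WithBot ℕ) := by
    apply max_le
    · refine (nsmul_le_nsmul_right hp2 2).trans ?_
      norm_num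
    · refine (add_le_add_left (nsmul_le_nsmul_right hq1 2) 3).trans ?_
      norm_num
  have hne : max (2 • p.degree) (2 • q.degree + 3) ≠ ⊥ := by
    rw [← D_basis, Ne, D_eq_bot]
    intro h0
    apply h
    have h1 := CoordinateRing.smul_basis_eq_zero h0
    have c0 : ∀ i, p.coeff i = 0 := fun i => by rw [h1.1, coeff_zero]
    have c1 : ∀ i, q.coeff i = 0 := fun i => by rw [h1.2, coeff_zero]
    have a0 := c0 0
    have a1 := c0 1
    have a2 := c0 2
    have b0 := c1 0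
    have b1 := c1 1
    rw [hp] at a0 a1 a2
    rw [hq] at b0 b1
    simp [coeff_X, coeff_C] at a0 a1 a2 b0 b1
    exact ⟨a0, a1, b0, a2, b1⟩
  obtain ⟨m, hm⟩ := WithBot.ne_bot_iff_exists.mp hne
  refine ⟨m, by positivity, ?_, ?_⟩
  · rw [← hm] at hle
    have : m ≤ 5 := WithBot.coe_le_coe.mp hle
    exact_mod_cast this
  · rw [N5_basis]
    exact v_basis _ _ hm.symm

lemma v_c {c : k} (hc : c ≠ 0) : v (k := k) (cK c) = 1 := by
  have h : cK c = inc ((C c) • (1 : R k) + (0 : k[X]) • CoordinateRing.mk (E k) X) := by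
    rw [inc_basis]; simp
  rw [h, v_basis (n := 0)]
  · rfl
  · rw [degree_C hc, degree_zero]
    rfl

lemma v_x : v (k := k) xK = exp 2 := by
  have h : (xK : K k) = inc ((X : k[X]) • (1 : R k) + (0 : k[X]) • CoordinateRing.mk (E k) X) := by
    rw [inc_basis]; simp
  rw [h, v_basis (n := 2)]
  · rfl
  · rw [degree_X, degree_zero]
    rfl

lemma v_x1 : v (k := k) (xK - 1) = exp 2 := by
  have h : (xK - 1 : K k) = inc ((X - C 1 : k[X]) • (1 : R k) + (0 : k[X]) • CoordinateRing.mk (E k) X) := by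
    rw [inc_basis]; simp
  rw [h, v_basis (n := 2)]
  · rfl
  · rw [degree_X_sub_C, degree_zero]
    rfl

lemma v_y : v (k := k) yK = exp 3 := by
  have h : (yK : K k) = inc ((0 : k[X]) • (1 : R k) + (1 : k[X]) • CoordinateRing.mk (E k) X) := by
    rw [inc_basis]; simp
  rw [h, v_basis (n := 3)]
  · rfl
  · rw [degree_one, degree_zero]
    rfl

lemma v_xy : v (k := k) (xK + yK) = exp 3 := by
  have h : (xK + yK : K k) = inc ((X : k[X]) • (1 : R k) + (1 : k[X]) • CoordinateRing.mk (E k) X) := by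
    rw [inc_basis]; simp
  rw [h, v_basis (n := 3)]
  · rfl
  · rw [degree_one, degree_X]
    rfl

lemma ne_of_v {z : K k} {i : ℤ} (h : v (k := k) z = exp i) : z ≠ 0 := by
  rintro rfl
  rw [map_zero] at h
  exact exp_ne_zero h.symm

/-- the monomials in the four units -/
noncomputable def mo (a b c d : ℤ) : K k := xK ^ a * (xK - 1) ^ b * yK ^ c * (xK + yK) ^ d

lemma v_mo (a b c d : ℤ) : v (k := k) (mo a b c d) = exp (2 * a + 2 * b + 3 * c + 3 * d) := by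
  unfold mo
  rw [map_mul, map_mul, map_mul, map_zpow₀, map_zpow₀, map_zpow₀, map_zpow₀, v_x, v_x1, v_y, v_xy,
    ← exp_zsmul, ← exp_zsmul, ← exp_zsmul, ← exp_zsmul, ← exp_add, ← exp_add, ← exp_add]
  congr 1
  simp only [smul_eq_mul]
  ring

lemma x_ne : (xK : K k) ≠ 0 := ne_of_v v_x
lemma x1_ne : (xK - 1 : K k) ≠ 0 := ne_of_v v_x1
lemma y_ne : (yK : K k) ≠ 0 := ne_of_v v_y
lemma xy_ne : (xK + yK : K k) ≠ 0 := ne_of_v v_xy

lemma mo_ne (a b c d : ℤ) : (mo a b c d : K k) ≠ 0 := ne_of_v (v_mo a b c d)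

lemma dv_sub_one (z : K k) : dv (z - 1) = dv z := by
  have h := dv_add (z - 1) 1
  rw [sub_add_cancel, dv_one, add_zero] at h
  exact h.symm

/-- the logarithmic derivative of a monomial -/
lemma ld_mo (a b c d : ℤ) : xK * (xK - 1) * ld (mo a b c d : K k) =
    N5 (-(a : k) - 2 * c - d) ((a : k) + b + 3 * c + 2 * d) (-2 * (a : k) - 2 * c - d) (-(d : k))
      (2 * (a : k) + 2 * b + 3 * c + 3 * d) := by
  have hx := x_ne (k := k)
  have hx1 := x1_ne (k := k)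
  have hy := y_ne (k := k)
  have hxy := xy_ne (k := k)
  have he := eqK (k := k)
  have e : ld (mo a b c d : K k) = (a : K k) * ((2 * yK + 1) / xK) +
      (b : K k) * ((2 * yK + 1) / (xK - 1)) + (c : K k) * ((3 * xK ^ 2 - 2 * xK) / yK) +
      (d : K k) * ((2 * yK + 1 + (3 * xK ^ 2 - 2 * xK)) / (xK + yK)) := by
    unfold mo
    rw [ld_mul (mul_ne_zero (mul_ne_zero (zpow_ne_zero _ hx) (zpow_ne_zero _ hx1))
      (zpow_ne_zero _ hy)) (zpow_ne_zero _ hxy),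
      ld_mul (mul_ne_zero (zpow_ne_zero _ hx) (zpow_ne_zero _ hx1)) (zpow_ne_zero _ hy),
      ld_mul (zpow_ne_zero _ hx) (zpow_ne_zero _ hx1), ld_zpow hx, ld_zpow hx1, ld_zpow hy,
      ld_zpow hxy]
    unfold ld
    rw [dv_sub_one, dv_add, dv_x, dv_y]
  have e1 : xK * (xK - 1) * ((2 * yK + 1) / xK) = (xK - 1) * (2 * yK + 1 : K k) := by
    field_simp
  have e2 : xK * (xK - 1) * ((2 * yK + 1) / (xK - 1)) = xK * (2 * yK + 1 : K k) := by
    field_simp
  have e3 : xK * (xK - 1) * ((3 * xK ^ 2 - 2 * xK) / yK) = (3 * xK - 2) * (yK + 1 : K k) := by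
    rw [← mul_div_assoc, div_eq_iff hy]
    linear_combination (-(3 * xK - 2)) * he
  have e4 : xK * (xK - 1) * ((2 * yK + 1 + (3 * xK ^ 2 - 2 * xK)) / (xK + yK)) =
      3 * xK * yK - yK - xK ^ 2 + 2 * xK - (1 : K k) := by
    rw [← mul_div_assoc, div_eq_iff hxy]
    linear_combination (-(3 * xK - 1)) * he
  have hc : ∀ n : ℤ, cK ((n : k)) = (n : K k) := fun n => map_intCast _ n
  rw [e]
  unfold N5
  simp only [map_sub, map_add, map_mul, map_neg, hc, map_ofNat]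
  linear_combination (a : K k) * e1 + (b : K k) * e2 + (c : K k) * e3 + (d : K k) * e4

lemma N5_sub (n₀ n₁ n₂ n₃ n₄ n₀' n₁' n₂' n₃' n₄' : k) :
    N5 n₀ n₁ n₂ n₃ n₄ - N5 n₀' n₁' n₂' n₃' n₄' =
      N5 (n₀ - n₀') (n₁ - n₁') (n₂ - n₂') (n₃ - n₃') (n₄ - n₄') := by
  unfold N5
  simp only [map_sub]
  ring

lemma coef_zero [CharZero k] {a b c d : ℤ} (h : -(a : k) - 2 * c - d = 0 ∧
    (a : k) + b + 3 * c + 2 * d = 0 ∧ -2 * (a : k) - 2 * c - d = 0 ∧ -(d : k) = 0 ∧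
    2 * (a : k) + 2 * b + 3 * c + 3 * d = 0) : a = 0 ∧ b = 0 ∧ c = 0 ∧ d = 0 := by
  obtain ⟨h1, h2, h3, h4, -⟩ := h
  have h1' : -a - 2 * c - d = 0 := by exact_mod_cast h1
  have h2' : a + b + 3 * c + 2 * d = 0 := by exact_mod_cast h2
  have h3' : -2 * a - 2 * c - d = 0 := by exact_mod_cast h3
  have h4' : -d = 0 := by exact_mod_cast h4
  omega

/-- **the bound at one cusp** -/
theorem GL_K [CharZero k] {c₀ c₁ : k} (h0 : c₀ ≠ 0) (h1 : c₁ ≠ 0) {a b c d a' b' c' d' : ℤ}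
    (h : cK c₀ * mo a b c d + cK c₁ * mo a' b' c' d' = 1) {n n' : ℤ}
    (hn : n = 2 * a + 2 * b + 3 * c + 3 * d) (hn' : n' = 2 * a' + 2 * b' + 3 * c' + 3 * d') :
    (a = 0 ∧ b = 0 ∧ c = 0 ∧ d = 0) ∨ (n = n' ∧ 1 ≤ n ∧ n ≤ 5) ∨ (n = 0 ∧ n' = 0) ∨
      (-5 ≤ n ∧ n ≤ -1 ∧ n' = 0) ∨ (n = 0 ∧ -5 ≤ n' ∧ n' ≤ -1) := by
  by_cases hz : a = 0 ∧ b = 0 ∧ c = 0 ∧ d = 0
  · exact Or.inl hz
  right
  set f : K k := cK c₀ * mo a b c d with hf
  set g : K k := cK c₁ * mo a' b' c' d' with hg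
  have hc0 : (cK c₀ : K k) ≠ 0 := ne_of_v (i := 0) (v_c h0)
  have hc1 : (cK c₁ : K k) ≠ 0 := ne_of_v (i := 0) (v_c h1)
  have hf0 : f ≠ 0 := mul_ne_zero hc0 (mo_ne _ _ _ _)
  have hg0 : g ≠ 0 := mul_ne_zero hc1 (mo_ne _ _ _ _)
  have vf : v (k := k) f = exp n := by rw [hf, map_mul, v_c h0, one_mul, v_mo, hn]
  have vg : v (k := k) g = exp n' := by rw [hg, map_mul, v_c h1, one_mul, v_mo, hn']
  have lf : ld f = ld (mo a b c d : K k) := by
    rw [hf, ld_mul hc0 (mo_ne _ _ _ _)]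
    have : ld (cK c₀ : K k) = 0 := by unfold ld; rw [dv_c, zero_div]
    rw [this, zero_add]
  have lg : ld g = ld (mo a' b' c' d' : K k) := by
    rw [hg, ld_mul hc1 (mo_ne _ _ _ _)]
    have : ld (cK c₁ : K k) = 0 := by unfold ld; rw [dv_c, zero_div]
    rw [this, zero_add]
  have hd : f * ld f + g * ld g = 0 := by
    have h2 := congrArg dv h
    rw [dv_add, dv_one] at h2
    unfold ld
    rw [mul_div_cancel₀ _ hf0, mul_div_cancel₀ _ hg0]
    exact h2
  set Na := xK * (xK - 1) * ld (mo a b c d : K k) with hNa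
  set Nb := xK * (xK - 1) * ld (mo a' b' c' d' : K k) with hNb
  have hN : f * Na + g * Nb = 0 := by
    rw [hNa, hNb, ← lf, ← lg]
    linear_combination (xK * (xK - 1)) * hd
  have hg1 : g = 1 - f := by rw [← h]; ring
  have hNa0 : ¬ (-(a : k) - 2 * c - d = 0 ∧ (a : k) + b + 3 * c + 2 * d = 0 ∧
      -2 * (a : k) - 2 * c - d = 0 ∧ -(d : k) = 0 ∧ 2 * (a : k) + 2 * b + 3 * c + 3 * d = 0) :=
    fun h' => hz (coef_zero h')
  obtain ⟨i, i0, i5, hi⟩ := v_N5 hNa0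
  rw [← ld_mo, ← hNa] at hi
  have hNa1 : Na ≠ 0 := ne_of_v hi
  have hNb1 : Nb ≠ 0 := by
    intro h'
    rw [h', mul_zero, add_zero] at hN
    exact mul_ne_zero hf0 hNa1 hN
  have hNb0 : ¬ (-(a' : k) - 2 * c' - d' = 0 ∧ (a' : k) + b' + 3 * c' + 2 * d' = 0 ∧
      -2 * (a' : k) - 2 * c' - d' = 0 ∧ -(d' : k) = 0 ∧
      2 * (a' : k) + 2 * b' + 3 * c' + 3 * d' = 0) := by
    intro h'
    obtain ⟨e1, e2, e3, e4⟩ := coef_zero h'
    apply hNb1
    rw [hNb, ld_mo, e1, e2, e3, e4]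
    unfold N5
    simp
  obtain ⟨j, j0, j5, hj⟩ := v_N5 hNb0
  rw [← ld_mo, ← hNb] at hj
  have hS0 : Na - Nb ≠ 0 := by
    intro h'
    have h2 : Na = Nb := sub_eq_zero.mp h'
    apply hNb1
    rw [h2, ← add_mul, h, one_mul] at hN
    exact hN
  obtain ⟨l, l0, l5, hl⟩ : ∃ l : ℤ, 0 ≤ l ∧ l ≤ 5 ∧ v (k := k) (Na - Nb) = exp l := by
    rw [hNa, hNb, ld_mo, ld_mo, N5_sub] at hS0 ⊢
    apply v_N5
    rintro ⟨e1, e2, e3, e4, e5⟩
    apply hS0
    rw [e1, e2, e3, e4, e5]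
    unfold N5
    simp
  have e1 : f * (Na - Nb) = - Nb := by rw [hg1] at hN; linear_combination hN
  have e2 : g * (Na - Nb) = Na := by rw [hg1] at hN ⊢; linear_combination -hN
  have b1 : n + l = j := by
    have := congrArg (v (k := k)) e1
    rw [map_mul, Valuation.map_neg, vf, hl, hj, ← exp_add, exp_inj] at this
    exact this
  have b2 : n' + l = i := by
    have := congrArg (v (k := k)) e2
    rw [map_mul, vg, hl, hi, ← exp_add, exp_inj] at this
    exact this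
  rcases lt_trichotomy n 0 with hn0 | hn0 | hn0
  · -- `f` has a zero
    have h3 : v (k := k) f < 1 := by rw [vf, ← exp_zero, exp_lt_exp]; exact hn0
    have h4 : v (k := k) g = 1 := by rw [hg1]; exact Valuation.map_one_sub_of_lt _ h3
    rw [vg, exp_eq_one] at h4
    right; right; left
    exact ⟨by omega, by omega, h4⟩
  · have h4 : v (k := k) g ≤ 1 := by
      rw [hg1]
      refine (Valuation.map_sub _ _ _).trans (max_le (by rw [map_one]) ?_)
      rw [vf, hn0, exp_zero]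
    rw [vg, ← exp_zero, exp_le_exp] at h4
    rcases eq_or_lt_of_le h4 with h5 | h5
    · exact Or.inr (Or.inl ⟨hn0, h5⟩)
    · exact Or.inr (Or.inr (Or.inr ⟨hn0, by omega, by omega⟩))
  · have h3 : v (k := k) (1 : K k) < v (k := k) f := by
      rw [vf, map_one, ← exp_zero, exp_lt_exp]; exact hn0
    have h4 : v (k := k) g = v (k := k) f := by rw [hg1]; exact Valuation.map_sub_eq_of_lt_right _ h3
    rw [vg, vf, exp_inj] at h4
    left
    exact ⟨h4.symm, by omega, by omega⟩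

end Pool.Agent.UE11
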