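import Mathlib

/-!
# Values of elements of a field at a point of a subring

For a subring `ι : R → F` and a ring homomorphism `ε : R → L` into a field, `Val ι ε z a` says
that `z` is a quotient of elements of `R` whose denominator does not vanish under `ε`, with
value `a`.
-/

set_option autoImplicit false

namespace Pool.Agent.UE11

variable {R F L : Type*} [CommRing R] [Field F] [Field L] (ι : R →+* F) (ε : R →+* L)

/-- `z` has the value `a` -/
def Val (z : F) (a : L) : Prop := ∃ n d : R, ε d ≠ 0 ∧ z * ι d = ι n ∧ a * ε d = ε n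

variable {ι ε} (hι : Function.Injective ι)

include hι in
lemma Val.uniq {z : F} {a b : L} (ha : Val ι ε z a) (hb : Val ι ε z b) : a = b := by
  obtain ⟨n, d, hd, h1, h2⟩ := ha
  obtain ⟨n', d', hd', h1', h2'⟩ := hb
  have h : n * d' = n' * d := by
    apply hι
    rw [map_mul, map_mul, ← h1, ← h1']
    ring
  have h3 : ε n * ε d' = ε n' * ε d := by rw [← map_mul, h, map_mul]
  rw [← h2, ← h2'] at h3
  have : (a - b) * (ε d * ε d') = 0 := by linear_combination h3
  rcases mul_eq_zero.mp this with h4 | h4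
  · exact sub_eq_zero.mp h4
  · exact absurd h4 (mul_ne_zero hd hd')

lemma Val.of (r : R) : Val ι ε (ι r) (ε r) :=
  ⟨r, 1, by rw [map_one]; exact one_ne_zero, by rw [map_one, mul_one], by rw [map_one, mul_one]⟩

lemma Val.add {z w : F} {a b : L} (ha : Val ι ε z a) (hb : Val ι ε w b) :
    Val ι ε (z + w) (a + b) := by
  obtain ⟨n, d, hd, h1, h2⟩ := ha
  obtain ⟨n', d', hd', h1', h2'⟩ := hb
  refine ⟨n * d' + n' * d, d * d', by rw [map_mul]; exact mul_ne_zero hd hd', ?_, ?_⟩
  · rw [map_add, map_mul, map_mul, map_mul, ← h1, ← h1']; ring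
  · rw [map_add, map_mul, map_mul, map_mul, ← h2, ← h2']; ring

lemma Val.mul {z w : F} {a b : L} (ha : Val ι ε z a) (hb : Val ι ε w b) :
    Val ι ε (z * w) (a * b) := by
  obtain ⟨n, d, hd, h1, h2⟩ := ha
  obtain ⟨n', d', hd', h1', h2'⟩ := hb
  refine ⟨n * n', d * d', by rw [map_mul]; exact mul_ne_zero hd hd', ?_, ?_⟩
  · rw [map_mul, map_mul, ← h1, ← h1']; ring
  · rw [map_mul, map_mul, ← h2, ← h2']; ring

lemma Val.neg {z : F} {a : L} (ha : Val ι ε z a) : Val ι ε (-z) (-a) := by
  obtain ⟨n, d, hd, h1, h2⟩ := ha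
  exact ⟨-n, d, hd, by rw [map_neg, ← h1]; ring, by rw [map_neg, ← h2]; ring⟩

lemma Val.sub {z w : F} {a b : L} (ha : Val ι ε z a) (hb : Val ι ε w b) :
    Val ι ε (z - w) (a - b) := by
  rw [sub_eq_add_neg, sub_eq_add_neg]; exact ha.add hb.neg

lemma Val.one : Val ι ε (1 : F) (1 : L) := by
  have := Val.of (ι := ι) (ε := ε) 1
  rwa [map_one, map_one] at this

include hι in
lemma Val.inv {z : F} {a : L} (ha : Val ι ε z a) (h0 : a ≠ 0) : Val ι ε z⁻¹ a⁻¹ := by
  obtain ⟨n, d, hd, h1, h2⟩ := ha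
  have hn : ε n ≠ 0 := by rw [← h2]; exact mul_ne_zero h0 hd
  have hd0 : ι d ≠ 0 := by
    intro h
    have : d = 0 := hι (by rw [h, map_zero])
    exact hd (by rw [this, map_zero])
  have hn0 : ι n ≠ 0 := by
    intro h
    have : n = 0 := hι (by rw [h, map_zero])
    exact hn (by rw [this, map_zero])
  have hz : z ≠ 0 := by
    rintro rfl
    rw [zero_mul] at h1
    exact hn0 h1.symm
  refine ⟨d, n, hn, ?_, ?_⟩
  · rw [← h1]; field_simp
  · rw [← h2]; field_simp

lemma Val.pow {z : F} {a : L} (ha : Val ι ε z a) (n : ℕ) : Val ι ε (z ^ n) (a ^ n) := by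
  induction n with
  | zero => simpa using Val.one
  | succ n ih => rw [pow_succ, pow_succ]; exact ih.mul ha

include hι in
lemma Val.zpow {z : F} {a : L} (ha : Val ι ε z a) (h0 : a ≠ 0) (n : ℤ) :
    Val ι ε (z ^ n) (a ^ n) := by
  obtain ⟨m, rfl | rfl⟩ := n.eq_nat_or_neg
  · rw [zpow_natCast, zpow_natCast]; exact ha.pow m
  · rw [zpow_neg, zpow_neg, zpow_natCast, zpow_natCast]
    exact (ha.pow m).inv hι (pow_ne_zero m h0)

include hι in
lemma Val.div {z w : F} {a b : L} (ha : Val ι ε z a) (hb : Val ι ε w b) (h0 : b ≠ 0) :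
    Val ι ε (z / w) (a / b) := by
  rw [div_eq_mul_inv, div_eq_mul_inv]; exact ha.mul (hb.inv hι h0)

lemma Val.prod {κ : Type*} (s : Finset κ) {z : κ → F} {a : κ → L}
    (h : ∀ i, Val ι ε (z i) (a i)) : Val ι ε (∏ i ∈ s, z i) (∏ i ∈ s, a i) := by
  classical
  induction s using Finset.induction_on with
  | empty => simpa using Val.one
  | insert i s hi ih =>
    rw [Finset.prod_insert hi, Finset.prod_insert hi]
    exact (h i).mul ih

end Pool.Agent.UE11
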