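import Pool.Agent.Lib_helper76.UE11.E
import Pool.Agent.Lib_helper76.UE11.Circ
import Pool.Agent.Lib_helper76.UE11.Val

/-!
# The unit equation on `X₁(11)`, VI: all ten cusps

`h = x³ + 3xy - 5x² - 2y + 5x - 1` has the divisor `Σ (R + iP) + (3P) - 6 (O)`, where `R + iP` are
the five cusps which are not rational.  In a solution of `f + g = 1` in constants times monomials
in the units `X i` and `h`, the function `h` does not occur.
-/

set_option autoImplicit false
set_option linter.unusedSectionVars false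

namespace Pool.Agent.UE11

open Polynomial

/-- the function with zeros at the irrational cusps -/
def hh {L : Type*} [Field L] (x y : L) : L := x ^ 3 + 3 * x * y - 5 * x ^ 2 - 2 * y + 5 * x - 1

/-- a point of the curve outside the five rational cusps -/
structure Pt {L : Type*} [Field L] (x y : L) : Prop where
  eq : y ^ 2 + y = x ^ 3 - x ^ 2
  x0 : x ≠ 0
  x1 : x - 1 ≠ 0
  y0 : y ≠ 0
  xy0 : x + y ≠ 0

/-- an irrational cusp -/
structure C2 {L : Type*} [Field L] (x y : L) : Prop extends Pt x y where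
  hz : hh x y = 0

section pt

variable {L : Type*} [Field L] {x y : L}

lemma Pt.e1 (h : Pt x y) : x ^ 2 + y = y * (x + y) / (x - 1) := by
  rw [eq_div_iff h.x1]; linear_combination -h.eq

lemma Pt.h5 (h : Pt x y) : x ^ 2 + y ≠ 0 := by
  rw [h.e1]; exact div_ne_zero (mul_ne_zero h.y0 h.xy0) h.x1

lemma Pt.e2 (h : Pt x y) : x * y + x ^ 2 + y = y ^ 2 * (x + y) / (x - 1) ^ 2 := by
  rw [eq_div_iff (pow_ne_zero 2 h.x1)]
  linear_combination (-y + 1 - x) * h.eq

lemma Pt.g1 (h : Pt x y) : -y / x ^ 2 + -(x ^ 2 + y) / x ^ 3 = -(x * y + x ^ 2 + y) / x ^ 3 := by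
  have := h.x0
  field_simp
  ring

lemma Pt.g2 (h : Pt x y) : -y / x ^ 2 - 1 = -(x ^ 2 + y) / x ^ 2 := by
  have := h.x0
  field_simp
  ring

lemma Pt.next (h : Pt x y) : Pt (-y / x ^ 2) (-(x ^ 2 + y) / x ^ 3) := by
  have h1 := h.x0
  refine ⟨?_, div_ne_zero (neg_ne_zero.mpr h.y0) (pow_ne_zero 2 h1), ?_,
    div_ne_zero (neg_ne_zero.mpr h.h5) (pow_ne_zero 3 h1), ?_⟩
  · have he := h.eq
    field_simp
    linear_combination (x ^ 2 + y) * he
  · rw [h.g2]; exact div_ne_zero (neg_ne_zero.mpr h.h5) (pow_ne_zero 2 h1)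
  · rw [h.g1, h.e2]
    exact div_ne_zero (neg_ne_zero.mpr (div_ne_zero (mul_ne_zero (pow_ne_zero 2 h.y0) h.xy0)
      (pow_ne_zero 2 h.x1))) (pow_ne_zero 3 h1)

lemma Pt.X_ne (h : Pt x y) (i : Fin 5) : X x y i ≠ 0 := by
  have h1 := h.x0
  have h2 := h.x1
  have h3 := h.y0
  have h4 := h.xy0
  fin_cases i
  · exact h1
  · exact div_ne_zero (neg_ne_zero.mpr h3) (pow_ne_zero 2 h1)
  · exact div_ne_zero (mul_ne_zero h1 h4) (mul_ne_zero h3 h2)
  · exact div_ne_zero h3 h4
  · exact div_ne_zero h2 h3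

/-- translation to the next cusp -/
lemma Pt.X_next (h : Pt x y) (i : Fin 5) :
    X (-y / x ^ 2) (-(x ^ 2 + y) / x ^ 3) i = X x y (i + 1) := by
  have h1 := h.x0
  have h2 := h.x1
  have h3 := h.y0
  have h4 := h.xy0
  have e1 := h.e1
  have h5 := h.h5
  have e2 := h.e2
  have g1 := h.g1
  have g2 := h.g2
  fin_cases i
  · rfl
  · show -(-(x ^ 2 + y) / x ^ 3) / (-y / x ^ 2) ^ 2 = x * (x + y) / (y * (x - 1))
    rw [e1]
    field_simp
  · show (-y / x ^ 2) * (-y / x ^ 2 + -(x ^ 2 + y) / x ^ 3) /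
      (-(x ^ 2 + y) / x ^ 3 * (-y / x ^ 2 - 1)) = y / (x + y)
    rw [g1, g2, e2, e1]
    field_simp
  · show -(x ^ 2 + y) / x ^ 3 / (-y / x ^ 2 + -(x ^ 2 + y) / x ^ 3) = (x - 1) / y
    rw [g1, e2, e1]
    field_simp
  · show (-y / x ^ 2 - 1) / (-(x ^ 2 + y) / x ^ 3) = x
    rw [g2]
    field_simp

/-- the product of the five units is `-1` -/
lemma Pt.prod (h : Pt x y) : ∏ i, X x y i = -1 := by
  rw [Fin.prod_univ_five]
  show x * (-y / x ^ 2) * (x * (x + y) / (y * (x - 1))) * (y / (x + y)) * ((x - 1) / y) = -1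
  have h1 := h.x0
  have h2 := h.x1
  have h3 := h.y0
  have h4 := h.xy0
  field_simp

lemma C2.next (h : C2 x y) : C2 (-y / x ^ 2) (-(x ^ 2 + y) / x ^ 3) := by
  refine ⟨h.toPt.next, ?_⟩
  have h0 := h.hz
  have h1 := h.x0
  have h2 := h.x1
  have he := h.eq
  have key : hh (-y / x ^ 2) (-(x ^ 2 + y) / x ^ 3) * (x ^ 6 * (x - 1)) = 0 := by
    unfold hh at h0 ⊢
    field_simp
    linear_combination (x ^ 2 - x ^ 3 - x ^ 4 + (1 - 2 * x ^ 2) * y) * h0 +
      (-x * y + y + x ^ 3 + 4 * x ^ 2 - 5 * x + 1) * he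
  exact (mul_eq_zero.mp key).resolve_right (mul_ne_zero (pow_ne_zero 6 h1) h2)

/-- the cusps one after the other -/
def nx : ℕ → L × L → L × L
  | 0, p => p
  | n + 1, p => (-(nx n p).2 / (nx n p).1 ^ 2, -((nx n p).1 ^ 2 + (nx n p).2) / (nx n p).1 ^ 3)

lemma C2.nx (h : C2 x y) (n : ℕ) : C2 (nx n (x, y)).1 (nx n (x, y)).2 := by
  induction n with
  | zero => exact h
  | succ n ih => exact ih.next

lemma C2.X_nx (h : C2 x y) (n : ℕ) (i : Fin 5) :
    X (UE11.nx n (x, y)).1 (UE11.nx n (x, y)).2 i = X x y (i + sh n) := by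
  induction n generalizing i with
  | zero => show _ = X x y (i + 0); rw [add_zero]; rfl
  | succ n ih =>
    show X (-(UE11.nx n (x, y)).2 / (UE11.nx n (x, y)).1 ^ 2)
      (-((UE11.nx n (x, y)).1 ^ 2 + (UE11.nx n (x, y)).2) / (UE11.nx n (x, y)).1 ^ 3) i = _
    rw [(h.nx n).toPt.X_next, ih]
    show X x y (i + 1 + sh n) = X x y (i + (sh n + 1))
    congr 1
    rw [add_assoc, add_comm 1 (sh n)]

end pt

/-! ### the first coordinate is not a root of unity -/

/-- the quintic of the cusps -/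
lemma not_root_of_unity {L : Type*} [Field L] [CharZero L] {r : L}
    (hr : r ^ 5 - 18 * r ^ 4 + 35 * r ^ 3 - 16 * r ^ 2 - 2 * r + 1 = 0) {n : ℕ} (hn : n ≠ 0)
    (h1 : r ^ n = 1) : False := by
  set P : ℚ[X] := Polynomial.X ^ 5 - 18 * Polynomial.X ^ 4 + 35 * Polynomial.X ^ 3 -
    16 * Polynomial.X ^ 2 - 2 * Polynomial.X + 1 with hP
  set Q : ℚ[X] := Polynomial.X ^ n - 1 with hQ
  by_cases hc : IsCoprime P Q
  · obtain ⟨u, v, huv⟩ := hc
    have h2 := congrArg (aeval r) huv
    have hPr : aeval r P = 0 := by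
      rw [hP]
      simp only [map_add, map_sub, map_mul, map_pow, aeval_X, map_ofNat, map_one]
      exact hr
    have hQr : aeval r Q = 0 := by
      rw [hQ]
      simp only [map_sub, map_pow, aeval_X, map_one, h1, sub_self]
    rw [map_add, map_mul, map_mul, hPr, hQr, mul_zero, mul_zero, add_zero, map_one] at h2
    exact zero_ne_one h2
  · rw [Polynomial.isCoprime_iff_aeval_ne_zero_of_isAlgClosed ℚ ℂ] at hc
    obtain ⟨z, hz⟩ := not_forall.mp hc
    rw [not_or, not_not, not_not] at hz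
    obtain ⟨hz1, hz2⟩ := hz
    have hPz : z ^ 5 - 18 * z ^ 4 + 35 * z ^ 3 - 16 * z ^ 2 - 2 * z + 1 = 0 := by
      rw [hP] at hz1
      simpa only [map_add, map_sub, map_mul, map_pow, aeval_X, map_ofNat, map_one] using hz1
    have hzn : z ^ n = 1 := by
      rw [hQ] at hz2
      simp only [map_sub, map_pow, aeval_X, map_one] at hz2
      exact sub_eq_zero.mp hz2
    have hnorm : ‖z‖ = 1 := Complex.norm_eq_one_of_pow_eq_one hzn hn
    have hw : z * (starRingEnd ℂ) z = 1 := by
      rw [Complex.mul_conj, Complex.normSq_eq_norm_sq, hnorm]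
      norm_num
    have hPw := congrArg (starRingEnd ℂ) hPz
    simp only [map_add, map_sub, map_mul, map_pow, map_ofNat, map_one, map_zero] at hPw
    set w := (starRingEnd ℂ) z
    have h5 : 1 - 18 * z + 35 * z ^ 2 - 16 * z ^ 3 - 2 * z ^ 4 + z ^ 5 = 0 := by
      have e : z ^ 5 * (w ^ 5 - 18 * w ^ 4 + 35 * w ^ 3 - 16 * w ^ 2 - 2 * w + 1) = 0 := by
        rw [hPw, mul_zero]
      have e2 : z ^ 5 * (w ^ 5 - 18 * w ^ 4 + 35 * w ^ 3 - 16 * w ^ 2 - 2 * w + 1) =
          (z * w) ^ 5 - 18 * z * (z * w) ^ 4 + 35 * z ^ 2 * (z * w) ^ 3 -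
          16 * z ^ 3 * (z * w) ^ 2 - 2 * z ^ 4 * (z * w) + z ^ 5 := by ring
      rw [e2, hw] at e
      linear_combination e
    have h6 : (13333 : ℂ) = 0 := by
      linear_combination (33963 - 294351 * z + 221513 * z ^ 2 + 16500 * z ^ 3 - 13138 * z ^ 4) *
        hPz + (-20630 - 9063 * z + 292109 * z ^ 2 - 226708 * z ^ 3 + 13138 * z ^ 4) * h5
    norm_num at h6

/-- there is an irrational cusp over every algebraically closed field -/
lemma exists_C2 (L : Type*) [Field L] [CharZero L] [IsAlgClosed L] : ∃ r s : L, C2 r s ∧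
    r ^ 5 - 18 * r ^ 4 + 35 * r ^ 3 - 16 * r ^ 2 - 2 * r + 1 = 0 := by
  obtain ⟨r, hr⟩ : ∃ r : L, (Polynomial.X ^ 5 - 18 * Polynomial.X ^ 4 + 35 * Polynomial.X ^ 3 -
    16 * Polynomial.X ^ 2 - 2 * Polynomial.X + 1 : L[X]).IsRoot r := by
    apply IsAlgClosed.exists_root
    have : (Polynomial.X ^ 5 - 18 * Polynomial.X ^ 4 + 35 * Polynomial.X ^ 3 -
      16 * Polynomial.X ^ 2 - 2 * Polynomial.X + 1 : L[X]).degree = 5 := by
      compute_degree!
    rw [this]
    decide
  have hr' : r ^ 5 - 18 * r ^ 4 + 35 * r ^ 3 - 16 * r ^ 2 - 2 * r + 1 = 0 := by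
    have := hr
    simpa only [IsRoot.def, eval_add, eval_sub, eval_mul, eval_pow, eval_X, eval_ofNat,
      eval_one] using this
  have hb : 3 * r - 2 ≠ 0 := by
    intro h
    have h1 : (121 : L) = 0 := by
      linear_combination (-243) * hr' + (81 * r ^ 4 - 1404 * r ^ 3 + 1899 * r ^ 2 - 30 * r - 182) * h
    norm_num at h1
  set s := -(r ^ 3 - 5 * r ^ 2 + 5 * r - 1) / (3 * r - 2) with hs
  have hs' : (3 * r - 2) * s = -(r ^ 3 - 5 * r ^ 2 + 5 * r - 1) := by
    rw [hs]; field_simp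
  have hz : hh r s = 0 := by
    unfold hh
    linear_combination hs'
  have he : s ^ 2 + s = r ^ 3 - r ^ 2 := by
    apply mul_left_cancel₀ (pow_ne_zero 2 hb)
    linear_combination ((3 * r - 2) * s - (r ^ 3 - 5 * r ^ 2 + 5 * r - 1) + (3 * r - 2)) * hs' +
      (r - 1) * hr'
  have h0 : r ≠ 0 := by
    intro h
    rw [h] at hr'
    norm_num at hr'
  have h1 : r - 1 ≠ 0 := by
    intro h
    rw [sub_eq_zero.mp h] at hr'
    norm_num at hr'
  have hs0 : s ≠ 0 := by
    intro h
    rw [h] at he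
    have : r ^ 2 * (r - 1) = 0 := by linear_combination -he
    exact (mul_ne_zero (pow_ne_zero 2 h0) h1) this
  have hrs : r + s ≠ 0 := by
    intro h
    have : r * (r - 1) ^ 2 = 0 := by
      have h2 : s = -r := by linear_combination h
      rw [h2] at he
      linear_combination -he
    exact (mul_ne_zero h0 (pow_ne_zero 2 h1)) this
  exact ⟨r, s, ⟨⟨he, h0, h1, hs0, hrs⟩, hz⟩, hr'⟩

lemma sh_val (j : Fin 5) : sh j.val = j := by
  revert j; decide

lemma mon_const {L : Type*} [Field L] {x y : L} (h : Pt x y) {e : Fin 5 → ℤ}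
    (he : ∀ i j, e i = e j) : mon x y e = (-1) ^ e 0 := by
  unfold mon
  rw [← h.prod, ← Finset.prod_zpow]
  exact Finset.prod_congr rfl fun i _ => by rw [he i 0]

/-- **monomials with the same value at all irrational cusps** -/
theorem value {L : Type*} [Field L] [CharZero L] {r s : L} (h : C2 r s)
    (hr : r ^ 5 - 18 * r ^ 4 + 35 * r ^ 3 - 16 * r ^ 2 - 2 * r + 1 = 0) {c : L} {e : Fin 5 → ℤ}
    (hc : ∀ n, c * mon (nx n (r, s)).1 (nx n (r, s)).2 e = 1) : ∀ i j, e i = e j := by
  by_contra hne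
  have hc0 : c ≠ 0 := by
    intro h0
    have := hc 0
    rw [h0, zero_mul] at this
    exact zero_ne_one this
  let w : Fin 5 → Additive Lˣ := fun i => Additive.ofMul (Units.mk0 (X r s i) (h.toPt.X_ne i))
  obtain ⟨N, hN, hw⟩ := circ w e (Additive.ofMul (Units.mk0 c hc0)⁻¹) (by
    intro j
    apply Additive.toMul.injective
    apply Units.ext
    have h1 := hc j.val
    unfold mon at h1
    simp only [h.X_nx, sh_val] at h1
    rw [toMul_sum, Units.coe_prod, toMul_ofMul, Units.val_inv_eq_inv_val, Units.val_mk0,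
      ← eq_inv_of_mul_eq_one_right h1]
    refine Finset.prod_congr rfl fun i _ => ?_
    rw [toMul_zsmul, Units.val_zpow_eq_zpow_val]
    rfl) hne
  have hX : ∀ i, X r s (i + 1) ^ N = X r s i ^ N := by
    intro i
    have := congrArg (fun u => ((Additive.toMul u : Lˣ) : L)) (hw i)
    simpa only [toMul_zsmul, Units.val_zpow_eq_zpow_val, w, toMul_ofMul, Units.val_mk0] using this
  have h1 := hX 0
  have h2 := hX 1
  have h3 := hX 2
  have h4 := hX 3
  have hall : ∀ i, X r s i ^ N = r ^ N := by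
    intro i
    fin_cases i
    · rfl
    · exact h1
    · exact h2.trans h1
    · exact (h3.trans h2).trans h1
    · exact ((h4.trans h3).trans h2).trans h1
  have hp : (r ^ N) ^ 5 = (-1) ^ N := by
    rw [← h.toPt.prod, ← Finset.prod_zpow, Finset.prod_congr rfl (fun i _ => hall i),
      Finset.prod_const, Finset.card_univ, Fintype.card_fin]
  have hq : (r ^ 10) ^ N = 1 := by
    have : (r ^ 10) ^ N = ((r ^ N) ^ 5) ^ 2 := by
      rw [← pow_mul, ← zpow_natCast, ← zpow_natCast, ← zpow_mul, ← zpow_mul, mul_comm]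
    rw [this, hp, ← zpow_natCast, ← zpow_mul, mul_comm, zpow_mul]
    norm_num
  have hq' : (r ^ 10) ^ N.natAbs = 1 := by
    rcases Int.natAbs_eq N with h5 | h5
    · rw [h5, zpow_natCast] at hq; exact hq
    · rw [h5, zpow_neg, zpow_natCast, inv_eq_one] at hq; exact hq
  rw [← pow_mul] at hq'
  exact not_root_of_unity hr (by omega) hq'

/-! ### the theorem -/

section main

variable {k : Type*} [Field k] {F : Type*} [Field F] [Algebra k F] {x y : F}

lemma Gen.pt (h : Gen k x y) : Pt x y := ⟨h.eq, h.x_ne, h.x1_ne, h.y_ne, h.xy_ne⟩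

/-- the embedding of the coordinate ring -/
noncomputable def iot (h : Gen k x y) : R k →+* F := homR (algebraMap k F) x y h.eq

lemma iot_inj (h : Gen k x y) : Function.Injective (iot h) :=
  homR_injective (algebraMap k F) x y h.eq h.tr

lemma hh_ne (h : Gen k x y) : hh x y ≠ 0 := by
  intro h0
  set H : R k := xR ^ 3 + 3 * xR * yR - 5 * xR ^ 2 - 2 * yR + 5 * xR - 1 with hH
  have h1 : iot h H = 0 := by
    rw [hH]
    unfold iot
    simp only [map_add, map_sub, map_mul, map_pow, map_ofNat, map_one, homR_x, homR_y]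
    exact h0
  have h2 : H = 0 := iot_inj h (by rw [h1, map_zero])
  have h3 := congrArg (homR (RingHom.id k) (0 : k) 0 (by ring)) h2
  rw [hH] at h3
  simp only [map_add, map_sub, map_mul, map_pow, map_ofNat, map_one, homR_x, homR_y,
    map_zero] at h3
  norm_num at h3

section val

variable {L : Type*} [Field L] [Algebra k L] {r s : L} (h : Gen k x y) (hp : Pt r s)

/-- the values at a point -/
def VL (z : F) (a : L) : Prop := Val (iot h) (homR (algebraMap k L) r s hp.eq) z a

lemma VL_x : VL h hp x r := by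
  have := Val.of (ι := iot h) (ε := homR (algebraMap k L) r s hp.eq) xR
  unfold iot at this
  rwa [homR_x, homR_x] at this

lemma VL_y : VL h hp y s := by
  have := Val.of (ι := iot h) (ε := homR (algebraMap k L) r s hp.eq) yR
  unfold iot at this
  rwa [homR_y, homR_y] at this

lemma VL_c (c : k) : VL h hp (algebraMap k F c) (algebraMap k L c) := by
  have := Val.of (ι := iot h) (ε := homR (algebraMap k L) r s hp.eq) (cR c)
  unfold iot at this
  rwa [homR_c, homR_c] at this

lemma VL_X (i : Fin 5) : VL h hp (X x y i) (X r s i) := by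
  have hx := VL_x h hp
  have hy := VL_y h hp
  have hx1 : VL h hp (x - 1) (r - 1) := hx.sub Val.one
  have hxy : VL h hp (x + y) (r + s) := hx.add hy
  have inj := iot_inj h
  fin_cases i
  · exact hx
  · exact hy.neg.div inj (hx.pow 2) (pow_ne_zero 2 hp.x0)
  · exact (hx.mul hxy).div inj (hy.mul hx1) (mul_ne_zero hp.y0 hp.x1)
  · exact hy.div inj hxy hp.xy0
  · exact hx1.div inj hy hp.y0

lemma VL_mon (e : Fin 5 → ℤ) : VL h hp (mon x y e) (mon r s e) :=
  Val.prod _ fun i => (VL_X h hp i).zpow (iot_inj h) (hp.X_ne i) _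

lemma VL_hh : VL h hp (hh x y) (hh r s) := by
  have hx := VL_x h hp
  have hy := VL_y h hp
  have h3 : VL h hp (3 : F) (3 : L) := by
    have := VL_c h hp 3
    rwa [map_ofNat, map_ofNat] at this
  have h5 : VL h hp (5 : F) (5 : L) := by
    have := VL_c h hp 5
    rwa [map_ofNat, map_ofNat] at this
  have h2 : VL h hp (2 : F) (2 : L) := by
    have := VL_c h hp 2
    rwa [map_ofNat, map_ofNat] at this
  exact ((((((hx.pow 3).add ((h3.mul hx).mul hy)).sub (h5.mul (hx.pow 2))).sub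
    (h2.mul hy)).add (h5.mul hx)).sub Val.one)

lemma mon_pt_ne (hp : Pt r s) (e : Fin 5 → ℤ) : mon r s e ≠ 0 :=
  Finset.prod_ne_zero_iff.mpr fun i _ => zpow_ne_zero _ (hp.X_ne i)

end val

/-- the case of a zero -/
lemma caseA [CharZero k] (h : Gen k x y) {c₀ c₁ : k} (h1 : c₁ ≠ 0)
    {e e' : Fin 5 → ℤ} {q : ℕ} (hq : q ≠ 0) (hu : algebraMap k F c₀ * mon x y e +
      algebraMap k F c₁ * mon x y e' * hh x y ^ q = 1) : False := by
  obtain ⟨r, s, hC, hr⟩ := exists_C2 (AlgebraicClosure k)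
  have hv : ∀ n, algebraMap k (AlgebraicClosure k) c₀ *
      mon (nx n (r, s)).1 (nx n (r, s)).2 e = 1 := by
    intro n
    have hCn := hC.nx n
    have a1 := (VL_c h hCn.toPt c₀).mul (VL_mon h hCn.toPt e)
    have a2 := ((VL_c h hCn.toPt c₁).mul (VL_mon h hCn.toPt e')).mul ((VL_hh h hCn.toPt).pow q)
    have a3 := a1.add a2
    rw [hu, hCn.hz, zero_pow hq, mul_zero, add_zero] at a3
    exact a3.uniq (iot_inj h) Val.one
  have hconst := value hC hr hv
  rw [mon_const h.pt hconst] at hu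
  have hCn := hC.nx 0
  have b1 := hv 0
  rw [mon_const hCn.toPt hconst] at b1
  have b2 : c₀ * (-1) ^ e 0 = 1 := by
    apply (algebraMap k (AlgebraicClosure k)).injective
    rw [map_mul, map_zpow₀, map_neg, map_one]
    exact b1
  have b3 : algebraMap k F c₀ * (-1) ^ e 0 = 1 := by
    have := congrArg (algebraMap k F) b2
    rwa [map_mul, map_zpow₀, map_neg, map_one] at this
  rw [b3] at hu
  have b4 : algebraMap k F c₁ * mon x y e' * hh x y ^ q = 0 := by linear_combination hu
  exact (mul_ne_zero (mul_ne_zero ((_root_.map_ne_zero _).mpr h1) (mon_ne h e'))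
    (pow_ne_zero q (hh_ne h))) b4

lemma mon_sub {L : Type*} [Field L] {r s : L} (hp : Pt r s) (e e' : Fin 5 → ℤ) :
    mon r s (fun i => e i - e' i) * mon r s e' = mon r s e := by
  unfold mon
  rw [← Finset.prod_mul_distrib]
  refine Finset.prod_congr rfl fun i _ => ?_
  rw [← zpow_add₀ (hp.X_ne i), sub_add_cancel]

/-- the case of a pole -/
lemma caseB [CharZero k] (h : Gen k x y) {c₀ c₁ : k} (h1 : c₁ ≠ 0)
    {e e' : Fin 5 → ℤ} {t : ℕ} (ht : t ≠ 0) (hu : algebraMap k F c₀ * mon x y e +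
      algebraMap k F c₁ * mon x y e' = hh x y ^ t) : False := by
  obtain ⟨r, s, hC, hr⟩ := exists_C2 (AlgebraicClosure k)
  have h1' : algebraMap k (AlgebraicClosure k) c₁ ≠ 0 := (_root_.map_ne_zero _).mpr h1
  have hv0 : ∀ n, algebraMap k (AlgebraicClosure k) c₀ *
      mon (nx n (r, s)).1 (nx n (r, s)).2 e + algebraMap k (AlgebraicClosure k) c₁ *
      mon (nx n (r, s)).1 (nx n (r, s)).2 e' = 0 := by
    intro n
    have hCn := hC.nx n
    have a1 := (VL_c h hCn.toPt c₀).mul (VL_mon h hCn.toPt e)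
    have a2 := (VL_c h hCn.toPt c₁).mul (VL_mon h hCn.toPt e')
    have a3 := a1.add a2
    have a4 := (VL_hh h hCn.toPt).pow t
    rw [hCn.hz, zero_pow ht] at a4
    rw [hu] at a3
    exact a3.uniq (iot_inj h) a4
  have hv : ∀ n, (-(algebraMap k (AlgebraicClosure k) c₀) / algebraMap k (AlgebraicClosure k) c₁) *
      mon (nx n (r, s)).1 (nx n (r, s)).2 (fun i => e i - e' i) = 1 := by
    intro n
    have hCn := hC.nx n
    have a1 := hv0 n
    rw [← mon_sub hCn.toPt e e'] at a1
    have a2 := mon_pt_ne hCn.toPt e'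
    have a3 : algebraMap k (AlgebraicClosure k) c₀ * mon (nx n (r, s)).1 (nx n (r, s)).2
        (fun i => e i - e' i) + algebraMap k (AlgebraicClosure k) c₁ = 0 := by
      apply mul_right_cancel₀ a2
      linear_combination a1
    rw [div_mul_eq_mul_div, div_eq_one_iff_eq h1']
    linear_combination -a3
  have hconst := value hC hr hv
  have hm : mon x y e = (-1) ^ (e 0 - e' 0) * mon x y e' := by
    rw [← mon_sub h.pt e e', mon_const h.pt hconst]
  rw [hm] at hu
  have hCn := hC.nx 0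
  have b1 := hv 0
  rw [mon_const hCn.toPt hconst] at b1
  have b2 : c₀ * (-1) ^ (e 0 - e' 0) + c₁ = 0 := by
    apply (algebraMap k (AlgebraicClosure k)).injective
    rw [map_add, map_mul, map_zpow₀, map_neg, map_one, map_zero]
    field_simp at b1
    linear_combination -b1
  have b3 : algebraMap k F c₀ * (-1) ^ (e 0 - e' 0) + algebraMap k F c₁ = 0 := by
    have := congrArg (algebraMap k F) b2
    rwa [map_add, map_mul, map_zpow₀, map_neg, map_one, map_zero] at this
  have b4 : hh x y ^ t = 0 := by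
    rw [← hu]
    linear_combination (mon x y e') * b3
  exact pow_ne_zero t (hh_ne h) b4

/-- **In a solution of the unit equation with support in the ten cusps the function `h` does not
occur.** -/
theorem ten [CharZero k] (h : Gen k x y) {c₀ c₁ : k} (h0 : c₀ ≠ 0) (h1 : c₁ ≠ 0)
    {e e' : Fin 5 → ℤ} {m m' : ℤ} (hu : algebraMap k F c₀ * mon x y e * hh x y ^ m +
      algebraMap k F c₁ * mon x y e' * hh x y ^ m' = 1) : m = 0 ∧ m' = 0 := by
  have hH := hh_ne h
  -- evaluation of the equation times a power of `h`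
  obtain ⟨p, q, t, hp, hq, hmin⟩ : ∃ p q t : ℕ, (m = p - t) ∧ (m' = q - t) ∧
      (p = 0 ∨ q = 0 ∨ t = 0) := by
    rcases le_total m m' with hmm | hmm
    · rcases le_total m 0 with h2 | h2
      · exact ⟨0, (m' - m).toNat, (-m).toNat, by omega, by omega, Or.inl rfl⟩
      · exact ⟨m.toNat, m'.toNat, 0, by omega, by omega, Or.inr (Or.inr rfl)⟩
    · rcases le_total m' 0 with h2 | h2
      · exact ⟨(m - m').toNat, 0, (-m').toNat, by omega, by omega, Or.inr (Or.inl rfl)⟩
      · exact ⟨m.toNat, m'.toNat, 0, by omega, by omega, Or.inr (Or.inr rfl)⟩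
  have hu' : algebraMap k F c₀ * mon x y e * hh x y ^ p +
      algebraMap k F c₁ * mon x y e' * hh x y ^ q = hh x y ^ t := by
    have e1 := congrArg (fun z => z * hh x y ^ (t : ℤ)) hu
    simp only [add_mul, one_mul] at e1
    rw [mul_assoc _ (hh x y ^ m), ← zpow_add₀ hH, mul_assoc _ (hh x y ^ m'), ← zpow_add₀ hH,
      show m + (t : ℤ) = (p : ℤ) by omega, show m' + (t : ℤ) = (q : ℤ) by omega, zpow_natCast,
      zpow_natCast, zpow_natCast] at e1
    exact e1
  -- the values at one cusp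
  have hval : ∃ a b : AlgebraicClosure k, a ≠ 0 ∧ b ≠ 0 ∧ a * 0 ^ p + b * 0 ^ q = 0 ^ t := by
    obtain ⟨r, s, hC, hr⟩ := exists_C2 (AlgebraicClosure k)
    refine ⟨algebraMap k _ c₀ * mon r s e, algebraMap k _ c₁ * mon r s e',
      mul_ne_zero ((_root_.map_ne_zero _).mpr h0) (mon_pt_ne hC.toPt e),
      mul_ne_zero ((_root_.map_ne_zero _).mpr h1) (mon_pt_ne hC.toPt e'), ?_⟩
    have a1 := ((VL_c h hC.toPt c₀).mul (VL_mon h hC.toPt e)).mul ((VL_hh h hC.toPt).pow p)
    have a2 := ((VL_c h hC.toPt c₁).mul (VL_mon h hC.toPt e')).mul ((VL_hh h hC.toPt).pow q)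
    have a3 := a1.add a2
    have a4 := (VL_hh h hC.toPt).pow t
    rw [hC.hz] at a3 a4
    rw [hu'] at a3
    exact a3.uniq (iot_inj h) a4
  obtain ⟨a, b, ha, hb, hab⟩ := hval
  by_cases hp0 : p = 0
  · by_cases hq0 : q = 0
    · by_cases ht0 : t = 0
      · omega
      · exfalso
        rw [hp0, hq0, pow_zero, mul_one, mul_one] at hu'
        exact caseB h h1 ht0 hu'
    · by_cases ht0 : t = 0
      · exfalso
        rw [hp0, ht0, pow_zero, mul_one] at hu'
        exact caseA h h1 hq0 hu'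
      · exfalso
        rw [hp0, zero_pow hq0, zero_pow ht0, pow_zero, mul_one, mul_zero, add_zero] at hab
        exact ha hab
  · by_cases hq0 : q = 0
    · by_cases ht0 : t = 0
      · exfalso
        rw [hq0, ht0, pow_zero, mul_one, add_comm] at hu'
        exact caseA h h0 hp0 hu'
      · exfalso
        rw [hq0, zero_pow hp0, zero_pow ht0, pow_zero, mul_one, mul_zero, zero_add] at hab
        exact hb hab
    · exfalso
      have ht0 : t = 0 := by omega
      rw [ht0, zero_pow hp0, zero_pow hq0, mul_zero, mul_zero, add_zero, pow_zero] at hab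
      exact zero_ne_one hab

end main

end Pool.Agent.UE11
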